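import Mathlib
import Pool.Agent.Run7.h783.RecSeq.Seqn

set_option autoImplicit false

/-!
Walks in a group all of whose short windows are good: right translations, the subgroup of the connections, and
one sequence through this subgroup.
-/

namespace Pool.Agent.Run7.h783.GS

open Pool.Agent.Run7.h783.RecSeq

variable {G : Type} [Group G] [DecidableEq G] {P : Finset G → Prop}

/-- the right translate of `B` by `z` -/
def rt (B : Set G) (z : G) : Set G := {x | x * z⁻¹ ∈ B}

omit [DecidableEq G] in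
theorem mem_rt {B : Set G} {z x : G} : x ∈ rt B z ↔ x * z⁻¹ ∈ B := Iff.rfl

omit [DecidableEq G] in
theorem rt_one (B : Set G) : rt B 1 = B := by
  ext x; simp [rt]

omit [DecidableEq G] in
theorem rt_rt (B : Set G) (z w : G) : rt (rt B z) w = rt B (z * w) := by
  ext x
  rw [mem_rt, mem_rt, mem_rt, mul_inv_rev, mul_assoc]

omit [DecidableEq G] in
theorem rt_union (B C : Set G) (z : G) : rt (B ∪ C) z = rt B z ∪ rt C z := by
  ext x; simp [rt]

omit [DecidableEq G] in
theorem rt_mono {B C : Set G} (h : B ⊆ C) (z : G) : rt B z ⊆ rt C z := fun _ hx => h hx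

/-- invariance under right translations by the elements of `A` -/
def RInv (A : Subgroup G) (P : Finset G → Prop) : Prop :=
  ∀ (W : Finset G) (z : G), z ∈ A → P W → P (W.image (· * z))

theorem Seg.rt {A : Subgroup G} {k : ℕ} {S C D : Set G} {F : Finset G} {l : List G} (hP : RInv A P)
    {w : G} (hw : w ∈ A) (h : Seg P k S C D (F.image (· * w⁻¹)) l) :
    Seg P k (rt S w) (rt C w) (rt D w) F (l.map (· * w)) where
  nodup := h.nodup.map (mul_left_injective w)
  len := by rw [List.length_map]; exact h.len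
  sub := fun x hx => by
    obtain ⟨y, hy, rfl⟩ := List.mem_map.1 hx
    simpa [GS.rt] using h.sub y hy
  av := fun x hx hxF => by
    obtain ⟨y, hy, rfl⟩ := List.mem_map.1 hx
    exact h.av y hy (Finset.mem_image.2 ⟨_, hxF, by group⟩)
  head := fun x hx => by
    rw [← List.map_take] at hx
    obtain ⟨y, hy, rfl⟩ := List.mem_map.1 hx
    simpa [GS.rt] using h.head y hy
  last := fun x hx => by
    rw [List.length_map, ← List.map_drop] at hx
    obtain ⟨y, hy, rfl⟩ := List.mem_map.1 hx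
    simpa [GS.rt] using h.last y hy
  win := fun s hs hne hlen => by
    obtain ⟨t, ht, rfl⟩ := List.infix_map_iff.1 hs
    have h1 := hP _ w hw (h.win t ht (by simpa using hne) (by simpa using hlen))
    have h2 : (t.map (· * w)).toFinset = t.toFinset.image (· * w) := by
      ext x
      simp only [List.mem_toFinset, List.mem_map, Finset.mem_image]
    rwa [h2]

theorem Conn.rt {A : Subgroup G} {k : ℕ} {S C D : Set G} (hP : RInv A P) (h : Conn P k S C D) {w : G}
    (hw : w ∈ A) : Conn P k (rt S w) (rt C w) (rt D w) := fun F => by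
  obtain ⟨l, hl⟩ := h (F.image (· * w⁻¹))
  exact ⟨_, Seg.rt hP hw hl⟩

theorem Cl.rt {A : Subgroup G} {k : ℕ} {C : Set G} (hP : RInv A P) (h : Cl P k C) {w : G} (hw : w ∈ A) :
    Cl P k (rt C w) := by
  constructor
  · have h1 : GS.rt C w = (· * w) '' C := by
      ext x
      simp only [GS.rt, Set.mem_ofPred_eq, Set.mem_image]
      constructor
      · intro hx
        exact ⟨_, hx, by group⟩
      · rintro ⟨y, hy, rfl⟩
        simpa using hy
    rw [h1]
    exact h.1.image (mul_left_injective w).injOn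
  · intro W hW hWk hWC
    have h1 := hP _ w hw (h.2 (W.image (· * w⁻¹)) (hW.image _) (Finset.card_image_le.trans hWk) (by
      intro x hx
      obtain ⟨y, hy, rfl⟩ := Finset.mem_image.1 hx
      exact hWC y hy))
    have h2 : (W.image (· * w⁻¹)).image (· * w) = W := by
      rw [Finset.image_image]
      simp [Function.comp_def]
    rwa [h2] at h1

omit [DecidableEq G] in
theorem rt_subgroup (H : Subgroup G) {z : G} (hz : z ∈ H) : rt (H : Set G) z = H := by
  ext x
  simp only [GS.rt, Set.mem_ofPred_eq, SetLike.mem_coe]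
  exact ⟨fun h => by simpa using H.mul_mem h hz, fun h => H.mul_mem h (H.inv_mem hz)⟩

/-- direct connections between `B` and its right translate by `z` -/
def Dir (P : Finset G → Prop) (k : ℕ) (B : Set G) (z : G) : Prop := Conn P k (B ∪ rt B z) B (rt B z)

/-- the subgroup generated by the direct connections -/
def HH (P : Finset G → Prop) (A : Subgroup G) (k : ℕ) (B : Set G) : Subgroup G :=
  Subgroup.closure {z | z ∈ A ∧ Dir P k B z}

theorem HH_le {A : Subgroup G} {k : ℕ} {B : Set G} : HH P A k B ≤ A :=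
  (Subgroup.closure_le _).2 fun _ hz => hz.1

theorem HH_anti {A : Subgroup G} {k k' : ℕ} {B B' : Set G} (hk : k ≤ k') (hB : B' ⊆ B) :
    HH P A k' B' ≤ HH P A k B := by
  refine Subgroup.closure_mono fun z hz => ⟨hz.1, fun F => ?_⟩
  obtain ⟨l, hl⟩ := hz.2 F
  exact ⟨l, hl.mono hk (Set.union_subset_union hB (rt_mono hB z)) hB (rt_mono hB z) subset_rfl⟩

/-- the subgroup of the `z ∈ H` such that `B` and its translate by `z` are connected in `H` -/
def TT {A : Subgroup G} (hP : RInv A P) (k : ℕ) (H : Subgroup G) (hHA : H ≤ A) (B : Set G) (hB : Cl P k B)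
    (hBH : B ⊆ H) : Subgroup G where
  carrier := {z | z ∈ H ∧ Conn P k H B (rt B z)}
  one_mem' := ⟨H.one_mem, by rw [rt_one]; exact Conn.refl hB hBH⟩
  mul_mem' := by
    rintro z w ⟨hz, hz'⟩ ⟨hw, hw'⟩
    refine ⟨H.mul_mem hz hw, ?_⟩
    have h1 := Conn.rt hP hz' (hHA hw)
    rw [rt_subgroup H hw, rt_rt] at h1
    exact Conn.trans (Cl.rt hP hB (hHA hw)) hw' h1
  inv_mem' := by
    rintro z ⟨hz, hz'⟩
    refine ⟨H.inv_mem hz, ?_⟩
    have h1 := Conn.rt hP hz' (hHA (H.inv_mem hz))
    rw [rt_subgroup H (H.inv_mem hz), rt_rt, mul_inv_cancel, rt_one] at h1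
    exact h1.symm

theorem conn_HH {A : Subgroup G} (hP : RInv A P) {k : ℕ} {B : Set G} (hB : Cl P k B)
    (hBH : B ⊆ HH P A k B) {z : G} (hz : z ∈ HH P A k B) : Conn P k (HH P A k B) B (rt B z) := by
  have h1 : HH P A k B ≤ TT hP k (HH P A k B) HH_le B hB hBH := by
    refine (Subgroup.closure_le _).2 fun y hy => ?_
    have hyH : y ∈ HH P A k B := Subgroup.subset_closure hy
    refine ⟨hyH, hy.2.mono ?_⟩
    refine Set.union_subset hBH ?_
    rw [← rt_subgroup (HH P A k B) hyH]
    exact rt_mono hBH y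
  exact (h1 hz).2

/-- loops through a given element -/
theorem loop {A : Subgroup G} (hP : RInv A P) (k : ℕ) (H : Subgroup G) (hHA : H ≤ A) (B : Set G)
    (hB : Cl P k B) (hBH : B ⊆ H) (hT : ∀ z ∈ H, Conn P k H B (rt B z)) (F : Finset G) (y : G) (hy : y ∈ H)
    (hyF : y ∉ F) : ∃ l, Seg P k H B B F l ∧ y ∈ l := by
  obtain ⟨b, hb⟩ := hB.1.nonempty
  have hz : b⁻¹ * y ∈ H := H.mul_mem (H.inv_mem (hBH hb)) hy
  obtain ⟨l₁, hl₁⟩ := hT _ hz (insert y F)
  have hD := Cl.rt hP hB (hHA hz)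
  have hyD : y ∈ rt B (b⁻¹ * y) := by simpa [rt] using hb
  have hDH : rt B (b⁻¹ * y) ⊆ H := by
    rw [← rt_subgroup H hz]
    exact rt_mono hBH _
  have hl₁' := hl₁.mono le_rfl subset_rfl subset_rfl subset_rfl (Finset.subset_insert y F)
  have hyl₁ : y ∉ l₁ := fun h => hl₁.av y h (Finset.mem_insert_self _ _)
  obtain ⟨l₂, hl₂, hyl₂⟩ := cl_seg (S := H) hD hDH (F ∪ l₁.toFinset) y hyD (by simp [hyF, hyl₁])
  have hl₁₂ := hl₁'.append hD hl₂
  obtain ⟨l₃, hl₃⟩ := (hT _ hz).symm (F ∪ (l₁ ++ l₂).toFinset)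
  exact ⟨_, hl₁₂.append hD hl₃, by simp [hyl₂]⟩

omit [DecidableEq G] in
/-- a decreasing sequence of subgroups of index at most three is constant from some place on -/
theorem stable (A : Subgroup G) (f : ℕ → Subgroup G) (hf : Antitone f) (hA : ∀ k, f k ≤ A)
    (h : ∀ k, (f k).relIndex A ≠ 0 ∧ (f k).relIndex A ≤ 3) : ∃ k₀, ∀ k ≥ k₀, f k = f k₀ := by
  classical
  -- the largest index
  obtain ⟨k₀, hk₀⟩ : ∃ k₀, ∀ k, (f k).relIndex A ≤ (f k₀).relIndex A := by
    have hb : ∃ n, ∃ k, (f k).relIndex A = n := ⟨_, 0, rfl⟩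
    have hB : ∀ n, (∃ k, (f k).relIndex A = n) → n ≤ 3 := by
      rintro n ⟨k, rfl⟩
      exact (h k).2
    have h1 := Nat.findGreatest_spec (P := fun n => ∃ k, (f k).relIndex A = n) (n := 3)
      (hB _ ⟨0, rfl⟩) ⟨0, rfl⟩
    obtain ⟨k₀, hk₀⟩ := h1
    refine ⟨k₀, fun k => ?_⟩
    rw [hk₀]
    exact Nat.le_findGreatest (hB _ ⟨k, rfl⟩) ⟨k, rfl⟩
  refine ⟨k₀, fun k hk => le_antisymm (hf hk) ?_⟩
  have h1 := Subgroup.relIndex_mul_relIndex (f k) (f k₀) A (hf hk) (hA k₀)
  have h2 := hk₀ k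
  have h3 := (h k).1
  have h4 := (h k₀).1
  have h5 : (f k).relIndex (f k₀) = 1 := by
    have h6 : (f k).relIndex (f k₀) ≠ 0 := fun h0 => h3 (by rw [← h1, h0, zero_mul])
    by_contra h7
    have h8 : 2 ≤ (f k).relIndex (f k₀) := by omega
    have h9 : 2 * (f k₀).relIndex A ≤ (f k).relIndex A := by
      rw [← h1]; exact Nat.mul_le_mul_right _ h8
    omega
  exact Subgroup.relIndex_eq_one.1 h5

omit [DecidableEq G] in
/-- if two of any four elements of `A` are in the same coset of `H` then the index is at most three -/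
theorem index_le (A H : Subgroup G)
    (h : ∀ z : Fin 4 → G, (∀ i, z i ∈ A) → ∃ i j : Fin 4, i < j ∧ z j * (z i)⁻¹ ∈ H) :
    H.relIndex A ≠ 0 ∧ H.relIndex A ≤ 3 := by
  classical
  have key : ∀ s : Finset (A ⧸ H.subgroupOf A), s.card ≠ 4 := by
    intro s hs
    have e := (s.equivFinOfCardEq hs).symm
    choose r hr using fun i : Fin 4 => QuotientGroup.mk_surjective (e i).1
    obtain ⟨i, j, hij, hH⟩ := h (fun i => ((r i)⁻¹ : A)) (fun i => (r i)⁻¹.2)
    have h1 : (e j).1 = (e i).1 := by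
      rw [← hr j, ← hr i]
      rw [QuotientGroup.eq, Subgroup.mem_subgroupOf]
      simpa using hH
    exact absurd (e.injective (Subtype.ext h1)) (ne_of_gt hij)
  have hfin : Finite (A ⧸ H.subgroupOf A) := by
    by_contra hinf
    rw [not_finite_iff_infinite] at hinf
    obtain ⟨s, hs⟩ := Infinite.exists_subset_card_eq (A ⧸ H.subgroupOf A) 4
    exact key s hs
  have := Fintype.ofFinite (A ⧸ H.subgroupOf A)
  have hidx : H.relIndex A = Fintype.card (A ⧸ H.subgroupOf A) := by
    rw [Subgroup.relIndex, Subgroup.index, Nat.card_eq_fintype_card]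
  rw [hidx]
  refine ⟨Fintype.card_ne_zero, ?_⟩
  by_contra hcon
  obtain ⟨s, -, hs⟩ := Finset.exists_subset_card_eq (s := (Finset.univ : Finset (A ⧸ H.subgroupOf A)))
    (n := 4) (by rw [Finset.card_univ]; omega)
  exact key s hs

/-- one sequence through the subgroup of the connections -/
theorem engine (A : Subgroup G) (hP : RInv A P) (hcount : (A : Set G).Countable) (B : ℕ → Set G)
    (hBa : Antitone B) (hB : ∀ k, Cl P k (B k))
    (hind : ∀ k, (HH P A k (B k)).relIndex A ≠ 0 ∧ (HH P A k (B k)).relIndex A ≤ 3)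
    (hBH : ∀ k, B k ⊆ HH P A k (B k)) :
    ∃ H : Subgroup G, H ≤ A ∧ H.relIndex A ≠ 0 ∧ H.relIndex A ≤ 3 ∧
      ∃ x : ℕ → G, Function.Injective x ∧ Set.range x = H ∧
        ∀ k : ℕ, 1 ≤ k → ∃ i₀ : ℕ, ∀ i ≥ i₀, P ((Finset.range k).image fun j => x (i + j)) := by
  obtain ⟨k₀, hk₀⟩ := stable A (fun k => HH P A k (B k)) (fun k k' h => HH_anti h (hBa h))
    (fun k => HH_le) hind
  set H : Subgroup G := HH P A k₀ (B k₀) with hH
  have hHk : ∀ k, HH P A (max k k₀) (B (max k k₀)) = H := fun k => hk₀ _ (le_max_right _ _)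
  have hHA : H ≤ A := HH_le
  refine ⟨H, hHA, (hind k₀).1, (hind k₀).2, ?_⟩
  have hinf : (H : Set G).Infinite := (hB k₀).1.mono (hBH k₀)
  have hcH : (H : Set G).Countable := hcount.mono hHA
  obtain ⟨e, he⟩ := hcH.exists_eq_range hinf.nonempty
  refine exists_sequence (P := P) (H : Set G) hinf (fun k => B (max k k₀)) (fun k => ?_) ?_ ?_ e he.symm
  · exact (hB (max k k₀)).mono (le_max_left _ _)
  · intro k k' h
    exact hBa (max_le_max_right k₀ h)
  · intro k F y hy hyF
    have hBk : B (max k k₀) ⊆ (H : Set G) := by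
      rw [← hHk k]; exact hBH _
    have hcl := (hB (max k k₀)).mono (le_max_left k k₀)
    refine loop hP k H hHA (B (max k k₀)) hcl hBk ?_ F y hy hyF
    intro z hz F'
    have hz' : z ∈ HH P A (max k k₀) (B (max k k₀)) := by rw [hHk k]; exact hz
    obtain ⟨l, hl⟩ := conn_HH hP (hB (max k k₀)) (hBH _) hz' F'
    rw [hHk k] at hl
    exact ⟨l, hl.mono (le_max_left _ _) subset_rfl subset_rfl subset_rfl subset_rfl⟩

end Pool.Agent.Run7.h783.GS
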