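import Mathlib
import Pool.Agent.TH899.UG.Qc
import Pool.Agent.H330.Ramsey
import Pool.Agent.Run7.h783.OneSeq.Four
import Pool.Agent.Run7.h783.GS.Grp

set_option autoImplicit false

/-!
Increasing affine maps of the rationals, sets of such maps with many simultaneous prime values, and the
coloured Maynard-Tao theorem for them.
-/

namespace Pool.Agent.Run7.h783.GS

open Finset
open Pool.Agent.H732R3.BigQ (Big)
open Pool.Agent.Run7.h783.RecSeq
open Pool.Agent.Run7.h783.OneSeq (lt4 card_lt4 two_of_four)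

/-- the permutations of the rationals -/
abbrev PQ : Type := Equiv.Perm ℚ

noncomputable instance decPQ : DecidableEq PQ := Classical.decEq _

/-- `x ↦ u x + v` -/
def aff (u v : ℚ) (hu : 0 < u) : PQ where
  toFun x := u * x + v
  invFun x := (x - v) / u
  left_inv x := by field_simp; ring
  right_inv x := by field_simp; ring

theorem aff_apply (u v : ℚ) (hu : 0 < u) (x : ℚ) : aff u v hu x = u * x + v := rfl

/-- the group of the increasing affine maps -/
def AffG : Subgroup PQ where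
  carrier := {σ | ∃ u v : ℚ, 0 < u ∧ ∀ x, σ x = u * x + v}
  one_mem' := ⟨1, 0, one_pos, fun x => by simp⟩
  mul_mem' := by
    rintro σ τ ⟨u, v, hu, h⟩ ⟨u', v', hu', h'⟩
    exact ⟨u * u', u * v' + v, mul_pos hu hu', fun x => by rw [Equiv.Perm.mul_apply, h', h]; ring⟩
  inv_mem' := by
    rintro σ ⟨u, v, hu, h⟩
    refine ⟨u⁻¹, -v / u, inv_pos.2 hu, fun x => ?_⟩
    rw [Equiv.Perm.inv_eq_iff_eq, h]
    field_simp
    ring

theorem mem_AffG {σ : PQ} : σ ∈ AffG ↔ ∃ u v : ℚ, 0 < u ∧ ∀ x, σ x = u * x + v := Iff.rfl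

theorem aff_mem (u v : ℚ) (hu : 0 < u) : aff u v hu ∈ AffG := ⟨u, v, hu, fun _ => rfl⟩

/-- two affine maps with the same values at two points -/
theorem aff_ext {σ τ : PQ} (hσ : σ ∈ AffG) (hτ : τ ∈ AffG) {x y : ℚ} (hxy : x ≠ y) (h1 : σ x = τ x)
    (h2 : σ y = τ y) : σ = τ := by
  obtain ⟨u, v, -, h⟩ := hσ
  obtain ⟨u', v', -, h'⟩ := hτ
  rw [h, h'] at h1 h2
  have h3 : (u - u') * (x - y) = 0 := by linear_combination h1 - h2
  have h4 : u = u' := by
    rcases mul_eq_zero.1 h3 with h | h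
    · linarith
    · exact absurd (sub_eq_zero.1 h) hxy
  subst h4
  have h5 : v = v' := by linarith
  subst h5
  ext z
  rw [h, h']

theorem countable_AffG : (AffG : Set PQ).Countable := by
  have h1 : (AffG : Set PQ) ⊆ Set.range (fun p : {p : ℚ × ℚ // 0 < p.1} => aff p.1.1 p.1.2 p.2) := by
    rintro σ ⟨u, v, hu, h⟩
    refine ⟨⟨(u, v), hu⟩, ?_⟩
    ext x
    simp only [aff_apply, h]
  exact (Set.countable_range _).mono h1

/-- the maps of `W` have simultaneous prime values very often on a rational progression -/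
def Pr (W : Finset PQ) : Prop := ∃ α β : ℚ, 0 < α ∧
  Big {n : ℕ | ∀ σ ∈ W, ∃ p : ℕ, p.Prime ∧ σ (α * n + β) = p}

theorem Pr.sub {W W' : Finset PQ} (h : W' ⊆ W) (hW : Pr W) : Pr W' := by
  obtain ⟨α, β, hα, hB⟩ := hW
  refine ⟨α, β, hα, Pool.Agent.H732R3.BigQ.Big.mono ?_ hB⟩
  intro n hn σ hσ
  exact hn σ (h hσ)

theorem rinv_Pr : RInv AffG Pr := by
  rintro W z ⟨u, v, hu, hz⟩ ⟨α, β, hα, hB⟩
  refine ⟨α / u, (β - v) / u, div_pos hα hu, Pool.Agent.H732R3.BigQ.Big.mono ?_ hB⟩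
  intro n hn σ hσ
  obtain ⟨τ, hτ, rfl⟩ := mem_image.1 hσ
  obtain ⟨p, hp, hp'⟩ := hn τ hτ
  refine ⟨p, hp, ?_⟩
  rw [Equiv.Perm.mul_apply, hz, ← hp']
  congr 1
  field_simp
  ring

/-- after a rational substitution the maps of `W` become integral linear forms without fixed divisor -/
def Ready (W : Finset PQ) : Prop := ∃ (α β : ℚ), 0 < α ∧ ∃ a b : PQ → ℤ,
  (∀ σ ∈ W, 0 < a σ ∧ ∀ n : ℤ, σ (α * n + β) = a σ * n + b σ) ∧
  ∀ p : ℕ, p.Prime → ∃ n : ℤ, ∀ σ ∈ W, ¬ (p : ℤ) ∣ a σ * n + b σ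

/-- the coloured theorem for affine maps -/
theorem mt {T M K : ℕ} (hQ : ∀ (a b : Fin T → Fin K → ℤ), (∀ g i, 0 < a g i) →
    Function.Injective (fun x : Fin T × Fin K => (a x.1 x.2, b x.1 x.2)) →
    (∀ p : ℕ, p.Prime → ∃ n : ℤ, ∀ g i, ¬ ((p : ℤ) ∣ a g i * n + b g i)) →
    ∃ (S : Finset (Fin T)) (c : Fin T → Fin K), M + 1 ≤ S.card ∧
      Big {n : ℕ | ∀ g ∈ S, 0 < a g (c g) * (n : ℤ) + b g (c g) ∧
        Prime (a g (c g) * (n : ℤ) + b g (c g))})
    (y : Fin T → Fin K → PQ) (hy : Function.Injective (fun x : Fin T × Fin K => y x.1 x.2))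
    (hA : ∀ g i, y g i ∈ AffG) (hR : Ready (univ.image fun x : Fin T × Fin K => y x.1 x.2)) :
    ∃ (S : Finset (Fin T)) (c : Fin T → Fin K), M + 1 ≤ S.card ∧ Pr (S.image fun g => y g (c g)) := by
  classical
  obtain ⟨α, β, hα, a, b, hab, hloc⟩ := hR
  have hmem : ∀ g i, y g i ∈ univ.image fun x : Fin T × Fin K => y x.1 x.2 := fun g i =>
    mem_image.2 ⟨(g, i), mem_univ _, rfl⟩
  obtain ⟨S, c, hS, hB⟩ := hQ (fun g i => a (y g i)) (fun g i => b (y g i))
    (fun g i => (hab _ (hmem g i)).1) (by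
      intro x x' h
      have h1 := (hab _ (hmem x.1 x.2)).2
      have h2 := (hab _ (hmem x'.1 x'.2)).2
      have h3 : a (y x.1 x.2) = a (y x'.1 x'.2) := congrArg Prod.fst h
      have h4 : b (y x.1 x.2) = b (y x'.1 x'.2) := congrArg Prod.snd h
      apply hy
      refine aff_ext (hA _ _) (hA _ _) (x := α * ((0 : ℤ) : ℚ) + β) (y := α * ((1 : ℤ) : ℚ) + β) ?_ ?_ ?_
      · push_cast
        intro h5
        have : α = 0 := by linarith
        exact hα.ne' this
      · rw [h1 0, h2 0, h3, h4]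
      · rw [h1 1, h2 1, h3, h4]) (by
      intro p hp
      obtain ⟨n, hn⟩ := hloc p hp
      exact ⟨n, fun g i => hn _ (hmem g i)⟩)
  refine ⟨S, c, hS, α, β, hα, Pool.Agent.H732R3.BigQ.Big.mono ?_ hB⟩
  intro n hn σ hσ
  obtain ⟨g, hg, rfl⟩ := mem_image.1 hσ
  obtain ⟨h1, h2⟩ := hn g hg
  have h3 := (hab _ (hmem g (c g))).2 n
  refine ⟨(a (y g (c g)) * (n : ℤ) + b (y g (c g))).natAbs, Int.prime_iff_natAbs_prime.1 h2, ?_⟩
  have h4 : (((a (y g (c g)) * (n : ℤ) + b (y g (c g))).natAbs : ℕ) : ℤ) =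
      a (y g (c g)) * (n : ℤ) + b (y g (c g)) := by
    rw [Int.natCast_natAbs, abs_of_pos h1]
  have h5 : ((((a (y g (c g)) * (n : ℤ) + b (y g (c g))).natAbs : ℕ) : ℤ) : ℚ) =
      a (y g (c g)) * n + b (y g (c g)) := by
    rw [h4]; push_cast; ring
  push_cast at h3
  rw [h3, ← h5]
  rfl

/-- distinct representatives of infinite sets -/
theorem reps {ι α : Type} [Fintype ι] (A : ι → Set α) (hA : ∀ i, (A i).Infinite) :
    ∃ f : ι → α, Function.Injective f ∧ ∀ i, f i ∈ A i := by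
  classical
  have key : ∀ s : Finset ι, ∃ f : ι → α, (∀ i ∈ s, f i ∈ A i) ∧ Set.InjOn f s := by
    intro s
    induction s using Finset.induction_on with
    | empty => exact ⟨fun i => (hA i).nonempty.some, by simp, by simp⟩
    | insert j s hj ih =>
      obtain ⟨f, hf1, hf2⟩ := ih
      obtain ⟨a, ha1, ha2⟩ := ((hA j).sdiff ((s.image f).finite_toSet)).nonempty
      refine ⟨Function.update f j a, ?_, ?_⟩
      · intro i hi
        rcases mem_insert.1 hi with rfl | hi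
        · simpa using ha1
        · have : i ≠ j := fun h => hj (h ▸ hi)
          rw [Function.update_of_ne this]
          exact hf1 i hi
      · intro i hi i' hi' h
        have hmem : ∀ i ∈ s, f i ≠ a := fun i hi hia => ha2 (by
          rw [mem_coe, ← hia]; exact mem_image_of_mem f hi)
        rcases mem_insert.1 (mem_coe.1 hi) with h1 | h1 <;> rcases mem_insert.1 (mem_coe.1 hi') with h2 | h2
        · rw [h1, h2]
        · subst h1
          have : i' ≠ i := fun h => hj (h ▸ h2)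
          rw [Function.update_self, Function.update_of_ne this] at h
          exact absurd h.symm (hmem _ h2)
        · subst h2
          have : i ≠ i' := fun h => hj (h ▸ h1)
          rw [Function.update_self, Function.update_of_ne this] at h
          exact absurd h (hmem _ h1)
        · have e1 : i ≠ j := fun h => hj (h ▸ h1)
          have e2 : i' ≠ j := fun h => hj (h ▸ h2)
          rw [Function.update_of_ne e1, Function.update_of_ne e2] at h
          exact hf2 h1 h2 h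
  obtain ⟨f, hf1, hf2⟩ := key univ
  exact ⟨f, fun i j h => hf2 (mem_coe.2 (mem_univ i)) (mem_coe.2 (mem_univ j)) h, fun i => hf1 i (mem_univ i)⟩

/-- the tails of a sequence -/
def Tl (E : ℕ → PQ) (N : ℕ) : Set PQ := {x | ∃ n, N ≤ n ∧ x = E n}

theorem Tl_anti (E : ℕ → PQ) : Antitone (Tl E) := by
  rintro N N' h x ⟨n, hn, rfl⟩
  exact ⟨n, h.trans hn, rfl⟩

theorem Tl_infinite (E : ℕ → PQ) (hE : Function.Injective E) (N : ℕ) : (Tl E N).Infinite := by
  have h1 : Tl E N = E '' Set.Ici N := by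
    ext x
    constructor
    · rintro ⟨n, hn, rfl⟩; exact ⟨n, hn, rfl⟩
    · rintro ⟨n, hn, rfl⟩; exact ⟨n, hn, rfl⟩
  rw [h1]
  exact (Set.Ici_infinite N).image hE.injOn

theorem rt_infinite {B : Set PQ} (hB : B.Infinite) (z : PQ) : (rt B z).Infinite := by
  have h1 : GS.rt B z = (· * z) '' B := by
    ext x
    simp only [GS.rt, Set.mem_ofPred_eq, Set.mem_image]
    constructor
    · intro hx
      exact ⟨_, hx, by group⟩
    · rintro ⟨y, hy, rfl⟩
      simpa using hy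
  rw [h1]
  exact hB.image (mul_left_injective z).injOn

/-- the local condition: finite sets of late elements of the four classes `E n * z i` are ready -/
def LCB (E : ℕ → PQ) (z : Fin 4 → PQ) : Prop := ∀ L : ℕ, ∃ n₀ : ℕ, ∀ W : Finset PQ, W.card ≤ L →
  (∀ w ∈ W, ∃ n, n₀ ≤ n ∧ ∃ i, w = E n * z i) → Ready W

theorem LCB.comp {E : ℕ → PQ} {z : Fin 4 → PQ} (h : LCB E z) {φ : ℕ → ℕ} (hφ : StrictMono φ) :
    LCB (E ∘ φ) z := by
  intro L
  obtain ⟨n₀, hn₀⟩ := h L
  refine ⟨n₀, fun W hW hw => hn₀ W hW fun w hwW => ?_⟩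
  obtain ⟨n, hn, i, hi⟩ := hw w hwW
  exact ⟨φ n, hn.trans hφ.le_apply, i, hi⟩

end Pool.Agent.Run7.h783.GS
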