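import Mathlib
import Pool.Agent.Run7.h783.GS.Base

set_option autoImplicit false

/-!
Every sequence of affine maps which satisfies the local condition has a subsequence all of whose late short
subsets have simultaneous prime values.
-/

namespace Pool.Agent.Run7.h783.GS

open Finset
open Pool.Agent.H732R3.BigQ (Big)
open Pool.Agent.Run7.h783.RecSeq

theorem many (E : ℕ → PQ) (hA : ∀ n, E n ∈ AffG) (hL : LCB E (fun _ => 1)) (m : ℕ) : ∃ L n₀ : ℕ,
    ∀ W : Finset PQ, W.card = L → (∀ w ∈ W, ∃ n, n₀ ≤ n ∧ w = E n) → ∃ W' ⊆ W, W'.card = m ∧ Pr W' := by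
  classical
  obtain ⟨c₀, hc₀, hc₁, hQ⟩ := Pool.Agent.TH899.UG.quarterC
  obtain ⟨K, hK, hQ'⟩ := hQ (4 * m + 1) m (by omega) (by
    push_cast
    nlinarith [Nat.cast_nonneg (α := ℝ) m])
  obtain ⟨n₀, hn₀⟩ := hL ((4 * m + 1) * K)
  refine ⟨(4 * m + 1) * K, n₀, fun W hW hWn => ?_⟩
  set e := (W.equivFinOfCardEq hW).symm with he
  set y : Fin (4 * m + 1) → Fin K → PQ := fun g i => (e (finProdFinEquiv (g, i))).1 with hy
  have hyi : Function.Injective (fun x : Fin (4 * m + 1) × Fin K => y x.1 x.2) := by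
    intro x x' h
    have h1 := e.injective (Subtype.ext h)
    exact finProdFinEquiv.injective h1
  have hyW : ∀ g i, y g i ∈ W := fun g i => (e (finProdFinEquiv (g, i))).2
  have hR : Ready (univ.image fun x : Fin (4 * m + 1) × Fin K => y x.1 x.2) := by
    apply hn₀
    · refine card_image_le.trans ?_
      rw [card_univ, Fintype.card_prod, Fintype.card_fin, Fintype.card_fin]
    · intro w hw
      obtain ⟨x, -, rfl⟩ := mem_image.1 hw
      obtain ⟨n, hn, hn'⟩ := hWn _ (hyW x.1 x.2)
      exact ⟨n, hn, 0, by rw [mul_one]; exact hn'⟩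
  obtain ⟨S, c, hS, hPr⟩ := mt hQ' y hyi (fun g i => by
    obtain ⟨n, -, hn⟩ := hWn _ (hyW g i)
    rw [hn]; exact hA n) hR
  have hcard : (S.image fun g => y g (c g)).card = S.card := by
    apply card_image_of_injOn
    intro g _ g' _ h
    exact congrArg Prod.fst (hyi (a₁ := (g, c g)) (a₂ := (g', c g')) h)
  obtain ⟨W', hW', hW'c⟩ := Finset.exists_subset_card_eq (s := S.image fun g => y g (c g)) (n := m)
    (by rw [hcard]; omega)
  refine ⟨W', fun w hw => ?_, hW'c, hPr.sub hW'⟩
  obtain ⟨g, -, rfl⟩ := mem_image.1 (hW' hw)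
  exact hyW _ _

theorem ram_step (E : ℕ → PQ) (hE : Function.Injective E) (hA : ∀ n, E n ∈ AffG)
    (hL : LCB E (fun _ => 1)) (m : ℕ) (X : Set ℕ) (hX : X.Infinite) : ∃ X' ⊆ X, X'.Infinite ∧
      ∀ s : Finset ℕ, s.card = m → (↑s : Set ℕ) ⊆ X' → Pr (s.image E) := by
  classical
  obtain ⟨L, n₀, hmany⟩ := many E hA hL m
  have : Infinite X := hX.to_subtype
  obtain ⟨H, c, hH, hc⟩ := Pool.Agent.H330.infinite_ramsey (A := X) (C := Prop) m
    (fun s => Pr (s.image fun n => E n.1))
  have hinj : Function.Injective (fun n : X => E n.1) := fun n n' h => Subtype.ext (hE h)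
  have hctrue : c := by
    -- a late finite subset
    have h1 : (H \ {n : X | n.1 < n₀}).Infinite := by
      apply hH.sdiff
      apply Set.Finite.subset (s := Subtype.val ⁻¹' (Set.Iio n₀))
      · exact (Set.finite_Iio n₀).preimage Subtype.val_injective.injOn
      · intro n hn
        exact hn
    obtain ⟨t, ht, htL⟩ := h1.exists_subset_card_eq L
    obtain ⟨W', hW', hW'm, hPr⟩ := hmany (t.image fun n => E n.1) (by
      rw [card_image_of_injective _ hinj]; exact htL) (by
      intro w hw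
      obtain ⟨n, hn, rfl⟩ := mem_image.1 hw
      have := (ht (mem_coe.2 hn)).2
      exact ⟨n.1, not_lt.1 this, rfl⟩)
    set s : Finset X := t.filter fun n => E n.1 ∈ W' with hs
    have hsW : s.image (fun n => E n.1) = W' := by
      ext w
      rw [mem_image]
      constructor
      · rintro ⟨n, hn, rfl⟩
        exact (mem_filter.1 hn).2
      · intro hw
        obtain ⟨n, hn, rfl⟩ := mem_image.1 (hW' hw)
        exact ⟨n, mem_filter.2 ⟨hn, hw⟩, rfl⟩
    have hsm : s.card = m := by
      rw [← hW'm, ← hsW, card_image_of_injective _ hinj]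
    have h2 := hc s hsm (fun n hn => (ht (mem_coe.2 (mem_filter.1 (mem_coe.1 hn)).1)).1)
    simp only [hsW] at h2
    rw [← h2]
    exact hPr
  refine ⟨Subtype.val '' H, ?_, hH.image Subtype.val_injective.injOn, ?_⟩
  · rintro _ ⟨n, -, rfl⟩
    exact n.2
  · intro s hsm hsX
    have hsX' : ∀ n ∈ s, n ∈ X := by
      intro n hn
      obtain ⟨n', -, rfl⟩ := hsX (mem_coe.2 hn)
      exact n'.2
    set s' : Finset X := s.subtype (· ∈ X) with hs'
    have h1 : s'.image (fun n => E n.1) = s.image E := by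
      ext w
      rw [mem_image, mem_image]
      constructor
      · rintro ⟨n, hn, rfl⟩
        exact ⟨n.1, mem_subtype.1 hn, rfl⟩
      · rintro ⟨n, hn, rfl⟩
        exact ⟨⟨n, hsX' n hn⟩, mem_subtype.2 hn, rfl⟩
    have h2 : s'.card = m := by
      rw [hs', card_subtype, filter_true_of_mem hsX', hsm]
    have h3 := hc s' h2 (by
      intro n hn
      obtain ⟨n', hn', hnn⟩ := hsX (mem_coe.2 (mem_subtype.1 (mem_coe.1 hn)))
      rwa [← Subtype.ext hnn])
    simp only [h1] at h3
    rw [h3]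
    exact hctrue

theorem exists_clique (E : ℕ → PQ) (hE : Function.Injective E) (hA : ∀ n, E n ∈ AffG)
    (hL : LCB E (fun _ => 1)) : ∃ φ : ℕ → ℕ, StrictMono φ ∧ ∀ k, Cl Pr k (Tl (E ∘ φ) k) := by
  classical
  have hstep := ram_step E hE hA hL
  choose! Y hY1 hY2 hY3 using hstep
  -- a decreasing sequence of infinite sets
  set H : ℕ → Set ℕ := fun j => Nat.rec Set.univ (fun j X => Y (j + 1) X) j with hH
  have hHs : ∀ j, H (j + 1) = Y (j + 1) (H j) := fun j => rfl
  have hHi : ∀ j, (H j).Infinite := by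
    intro j
    induction j with
    | zero => exact Set.infinite_univ
    | succ j ih => rw [hHs]; exact hY2 _ _ ih
  have hHa : Antitone H := antitone_nat_of_succ_le fun j => by
    rw [hHs]; exact hY1 _ _ (hHi j)
  -- the diagonal sequence
  have hgt : ∀ j n : ℕ, ∃ n' ∈ H j, n < n' := fun j n => (hHi j).exists_gt n
  choose nx hnx1 hnx2 using hgt
  set φ : ℕ → ℕ := fun j => Nat.rec (nx 0 0) (fun j a => nx (j + 1) a) j with hφ
  have hφs : ∀ j, φ (j + 1) = nx (j + 1) (φ j) := fun j => rfl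
  have hφm : StrictMono φ := strictMono_nat_of_lt_succ fun j => by rw [hφs]; exact hnx2 _ _
  have hφH : ∀ j, φ j ∈ H j := by
    intro j
    cases j with
    | zero => exact hnx1 0 0
    | succ j => rw [hφs]; exact hnx1 (j + 1) (φ j)
  refine ⟨φ, hφm, fun k => ⟨Tl_infinite _ (hE.comp hφm.injective) k, fun W hW hWk hWB => ?_⟩⟩
  have hk : 1 ≤ k := le_trans (card_pos.2 hW) hWk
  obtain ⟨k', rfl⟩ : ∃ k', k = k' + 1 := ⟨k - 1, by omega⟩
  have hch : ∀ w ∈ W, ∃ n, n ∈ H (k' + 1) ∧ w = E n := by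
    intro w hw
    obtain ⟨n, hn, rfl⟩ := hWB w hw
    exact ⟨φ n, hHa hn (hφH n), rfl⟩
  choose! ix hix1 hix2 using hch
  set s : Finset ℕ := W.image ix with hs
  have hsE : s.image E = W := by
    ext w
    rw [hs, image_image, mem_image]
    constructor
    · rintro ⟨w', hw', rfl⟩
      show E (ix w') ∈ W
      rw [← hix2 w' hw']; exact hw'
    · intro hw
      exact ⟨w, hw, (hix2 w hw).symm⟩
  have hsc : s.card = W.card := by
    rw [← hsE, card_image_of_injective _ hE]
  obtain ⟨t, ht, htc⟩ := ((hHi (k' + 1)).sdiff s.finite_toSet).exists_subset_card_eq (k' + 1 - s.card)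
  have hdis : Disjoint s t := by
    rw [Finset.disjoint_left]
    intro n hn hn'
    exact (ht (mem_coe.2 hn')).2 (mem_coe.2 hn)
  have h1 : (s ∪ t).card = k' + 1 := by
    rw [card_union_of_disjoint hdis, htc]
    omega
  have h2 : (↑(s ∪ t) : Set ℕ) ⊆ H (k' + 1) := by
    intro n hn
    rcases mem_union.1 (mem_coe.1 hn) with h | h
    · obtain ⟨w, hw, rfl⟩ := mem_image.1 h
      exact hix1 w hw
    · exact (ht (mem_coe.2 h)).1
  have h3 : Pr ((s ∪ t).image E) := hY3 (k' + 1) (H k') (hHi k') (s ∪ t) h1 (by rw [← hHs]; exact h2)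
  refine h3.sub ?_
  rw [← hsE]
  exact image_subset_image subset_union_left

end Pool.Agent.Run7.h783.GS
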