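import Mathlib
import Pool.Agent.Run7.h783.GS.Ram

set_option autoImplicit false

/-!
Two of four translates are connected; the general theorem on one sequence.
-/

namespace Pool.Agent.Run7.h783.GS

open Finset
open Pool.Agent.H732R3.BigQ (Big)
open Pool.Agent.Run7.h783.RecSeq
open Pool.Agent.Run7.h783.OneSeq (lt4 card_lt4 two_of_four)

theorem con4 (E : ℕ → PQ) (hE : Function.Injective E) (hA : ∀ n, E n ∈ AffG) (z : Fin 4 → PQ)
    (hz : ∀ i, z i ∈ AffG) (hL : LCB E z) (N k : ℕ) (F : Finset PQ) : ∃ i j : Fin 4, i < j ∧ ∃ l,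
      Seg Pr k (rt (Tl E N) (z i) ∪ rt (Tl E N) (z j)) (rt (Tl E N) (z i)) (rt (Tl E N) (z j)) F l := by
  classical
  obtain ⟨c₀, hc₀, hc₁, hQ⟩ := Pool.Agent.TH899.UG.quarterC
  obtain ⟨m, hm1, hm⟩ : ∃ m : ℕ, 1 ≤ m ∧ (4 - c₀) * ((m + 3 * k : ℕ) : ℝ) < ((4 * m : ℕ) : ℝ) := by
    obtain ⟨m, hm⟩ := exists_nat_gt ((4 - c₀) * (3 * k) / c₀ + 1)
    have h0 : 0 ≤ (4 - c₀) * (3 * k) / c₀ := by
      have : 0 ≤ 4 - c₀ := by linarith
      positivity
    refine ⟨m, ?_, ?_⟩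
    · have : (1 : ℝ) < m := by linarith
      exact_mod_cast this.le
    · have h1 : (4 - c₀) * (3 * k) / c₀ < m := by linarith
      rw [div_lt_iff₀ hc₀] at h1
      push_cast
      linarith
  obtain ⟨K, hK, hQ'⟩ := hQ (4 * m) (m + 3 * k) (by omega) hm
  obtain ⟨n₀, hn₀⟩ := hL (4 * m * K)
  -- the forms
  obtain ⟨f, hf, hfm⟩ := reps (ι := Fin (4 * m) × Fin K) (α := PQ)
    (fun x => rt (Tl E (max N n₀)) (z (lt4 m hm1 x.1)) \ (F : Set PQ))
    (fun x => (rt_infinite (Tl_infinite E hE _) _).sdiff F.finite_toSet)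
  set y : Fin (4 * m) → Fin K → PQ := fun g i => f (g, i) with hy
  have hyi : Function.Injective (fun x : Fin (4 * m) × Fin K => y x.1 x.2) := hf
  have hyr : ∀ g i, ∃ n, max N n₀ ≤ n ∧ y g i = E n * z (lt4 m hm1 g) := by
    intro g i
    obtain ⟨n, hn, hn'⟩ := (hfm (g, i)).1
    exact ⟨n, hn, by rw [← hn', inv_mul_cancel_right]⟩
  have hyF : ∀ g i, y g i ∉ F := fun g i => (hfm (g, i)).2
  have hyA : ∀ g i, y g i ∈ AffG := by
    intro g i
    obtain ⟨n, -, hn⟩ := hyr g i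
    rw [hn]
    exact AffG.mul_mem (hA n) (hz _)
  have hR : Ready (univ.image fun x : Fin (4 * m) × Fin K => y x.1 x.2) := by
    apply hn₀
    · refine card_image_le.trans ?_
      rw [card_univ, Fintype.card_prod, Fintype.card_fin, Fintype.card_fin]
    · intro w hw
      obtain ⟨x, -, rfl⟩ := mem_image.1 hw
      obtain ⟨n, hn, hn'⟩ := hyr x.1 x.2
      exact ⟨n, le_trans (le_max_right _ _) hn, _, hn'⟩
  obtain ⟨S, c, hS, hPr⟩ := mt hQ' y hyi hyA hR
  have hinj : ∀ g g', y g (c g) = y g' (c g') → g = g' := fun g g' h =>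
    congrArg Prod.fst (hyi (a₁ := (g, c g)) (a₂ := (g', c g')) h)
  -- two letters
  have hsum : ∑ a, (S.filter (fun g => lt4 m hm1 g = a)).card = S.card := by
    rw [← card_eq_sum_card_fiberwise (f := lt4 m hm1) (s := S) (t := univ) (fun _ _ => mem_coe.2 (mem_univ _))]
  obtain ⟨i, j, hij, hi, hj⟩ := two_of_four (fun a => (S.filter (fun g => lt4 m hm1 g = a)).card) m k
    (fun a => (card_le_card (filter_subset_filter _ (subset_univ _))).trans (card_lt4 m hm1 a))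
    (by rw [hsum]; exact hS)
  obtain ⟨U, hU, hUk⟩ := Finset.exists_subset_card_eq hi.le
  obtain ⟨V, hV, hVk⟩ := Finset.exists_subset_card_eq hj.le
  set U' : Finset PQ := U.image fun g => y g (c g) with hU'
  set V' : Finset PQ := V.image fun g => y g (c g) with hV'
  have hU'k : U'.card = k := by
    rw [hU', card_image_of_injective _ (fun g g' h => hinj g g' h), hUk]
  have hV'k : V'.card = k := by
    rw [hV', card_image_of_injective _ (fun g g' h => hinj g g' h), hVk]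
  have hUS : ∀ g ∈ U, g ∈ S ∧ lt4 m hm1 g = i := fun g hg => mem_filter.1 (hU hg)
  have hVS : ∀ g ∈ V, g ∈ S ∧ lt4 m hm1 g = j := fun g hg => mem_filter.1 (hV hg)
  have hUr : ∀ x ∈ U', x ∈ rt (Tl E N) (z i) := by
    intro x hx
    obtain ⟨g, hg, rfl⟩ := mem_image.1 hx
    obtain ⟨n, hn, hn'⟩ := hyr g (c g)
    refine ⟨n, le_trans (le_max_left _ _) hn, ?_⟩
    rw [hn', (hUS g hg).2, mul_inv_cancel_right]
  have hVr : ∀ x ∈ V', x ∈ rt (Tl E N) (z j) := by
    intro x hx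
    obtain ⟨g, hg, rfl⟩ := mem_image.1 hx
    obtain ⟨n, hn, hn'⟩ := hyr g (c g)
    refine ⟨n, le_trans (le_max_left _ _) hn, ?_⟩
    rw [hn', (hVS g hg).2, mul_inv_cancel_right]
  have hdis : ∀ x ∈ U', x ∉ V' := by
    intro x hx hx'
    obtain ⟨g, hg, rfl⟩ := mem_image.1 hx
    obtain ⟨g', hg', h⟩ := mem_image.1 hx'
    have h1 := hinj _ _ h
    subst h1
    have h2 := (hUS _ hg).2
    rw [(hVS _ hg').2] at h2
    exact absurd h2 (ne_of_gt hij)
  have hsub : ∀ x, x ∈ U' ∨ x ∈ V' → x ∈ S.image fun g => y g (c g) := by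
    rintro x (hx | hx)
    · obtain ⟨g, hg, rfl⟩ := mem_image.1 hx
      exact mem_image_of_mem _ (hUS g hg).1
    · obtain ⟨g, hg, rfl⟩ := mem_image.1 hx
      exact mem_image_of_mem _ (hVS g hg).1
  have hmem : ∀ x, x ∈ U'.toList ++ V'.toList ↔ x ∈ U' ∨ x ∈ V' := by
    intro x
    rw [List.mem_append, mem_toList, mem_toList]
  refine ⟨i, j, hij, U'.toList ++ V'.toList, ?_, ?_, ?_, ?_, ?_, ?_, ?_⟩
  · rw [List.nodup_append]
    refine ⟨nodup_toList _, nodup_toList _, fun a ha b hb hab => ?_⟩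
    subst hab
    exact hdis a (mem_toList.1 ha) (mem_toList.1 hb)
  · rw [List.length_append, length_toList, hU'k]
    exact Nat.le_add_right _ _
  · intro x hx
    rcases (hmem x).1 hx with h | h
    · exact Or.inl (hUr x h)
    · exact Or.inr (hVr x h)
  · intro x hx
    rcases (hmem x).1 hx with h | h
    · obtain ⟨g, -, rfl⟩ := mem_image.1 h
      exact hyF _ _
    · obtain ⟨g, -, rfl⟩ := mem_image.1 h
      exact hyF _ _
  · intro x hx
    rw [List.take_append_of_le_length (by rw [length_toList, hU'k])] at hx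
    exact hUr x (mem_toList.1 (List.mem_of_mem_take hx))
  · intro x hx
    rw [List.length_append, length_toList, length_toList, hU'k, hV'k, Nat.add_sub_cancel,
      List.drop_append_of_le_length (by rw [length_toList, hU'k]),
      List.drop_eq_nil_of_le (by rw [length_toList, hU'k]), List.nil_append] at hx
    exact hVr x (mem_toList.1 hx)
  · intro s hs hne hlen
    refine hPr.sub fun x hx => hsub x ?_
    exact (hmem x).1 (hs.subset (List.mem_toFinset.1 hx))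

/-- two of four translates are directly connected -/
theorem dir4 (E : ℕ → PQ) (hE : Function.Injective E) (hA : ∀ n, E n ∈ AffG) (z : Fin 4 → PQ)
    (hz : ∀ i, z i ∈ AffG) (hL : LCB E z) (N k : ℕ) : ∃ i j : Fin 4, i < j ∧
      Dir Pr k (Tl E N) (z j * (z i)⁻¹) := by
  classical
  have h0 : ∃ i j : Fin 4, i < j ∧ Conn Pr k (rt (Tl E N) (z i) ∪ rt (Tl E N) (z j)) (rt (Tl E N) (z i))
      (rt (Tl E N) (z j)) := by
    by_contra hcon
    push Not at hcon
    have h1 : ∀ i j : Fin 4, ∃ F : Finset PQ, i < j → ∀ l,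
        ¬ Seg Pr k (rt (Tl E N) (z i) ∪ rt (Tl E N) (z j)) (rt (Tl E N) (z i)) (rt (Tl E N) (z j)) F l := by
      intro i j
      by_cases hij : i < j
      · have h2 := hcon i j hij
        unfold Conn at h2
        push Not at h2
        obtain ⟨F, h3⟩ := h2
        exact ⟨F, fun _ => h3⟩
      · exact ⟨∅, fun h' => absurd h' hij⟩
    choose F hF using h1
    obtain ⟨i, j, hij, l, hl⟩ := con4 E hE hA z hz hL N k
      (univ.biUnion fun p : Fin 4 × Fin 4 => F p.1 p.2)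
    exact hF i j hij l (hl.mono le_rfl subset_rfl subset_rfl subset_rfl
      (subset_biUnion_of_mem (fun p : Fin 4 × Fin 4 => F p.1 p.2) (mem_univ (i, j))))
  obtain ⟨i, j, hij, h⟩ := h0
  refine ⟨i, j, hij, ?_⟩
  have h1 := Conn.rt rinv_Pr h (AffG.inv_mem (hz i))
  rw [rt_union, rt_rt, rt_rt, mul_inv_cancel, rt_one] at h1
  exact h1

/-- **The general theorem.** -/
theorem main (A : Subgroup PQ) (hA : A ≤ AffG) (E : ℕ → PQ) (hE : Function.Injective E)
    (hEA : ∀ n, E n ∈ A) (hL : LCB E (fun _ => 1))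
    (hidx : ∀ H : Subgroup PQ, H ≤ A →
      (∀ z : Fin 4 → PQ, (∀ i, z i ∈ A) → LCB E z → ∃ i j : Fin 4, i < j ∧ z j * (z i)⁻¹ ∈ H) →
      H.relIndex A ≠ 0 ∧ H.relIndex A ≤ 3 ∧ ∀ n, E n ∈ H) :
    ∃ H : Subgroup PQ, H ≤ A ∧ H.relIndex A ≠ 0 ∧ H.relIndex A ≤ 3 ∧
      ∃ x : ℕ → PQ, Function.Injective x ∧ Set.range x = H ∧
        ∀ k : ℕ, 1 ≤ k → ∃ i₀ : ℕ, ∀ i ≥ i₀, Pr ((Finset.range k).image fun j => x (i + j)) := by
  obtain ⟨φ, hφ, hcl⟩ := exists_clique E hE (fun n => hA (hEA n)) hL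
  have hP : RInv A Pr := fun W z hz h => rinv_Pr W z (hA hz) h
  have hfour : ∀ k, ∀ z : Fin 4 → PQ, (∀ i, z i ∈ A) → LCB E z →
      ∃ i j : Fin 4, i < j ∧ z j * (z i)⁻¹ ∈ HH Pr A k (Tl (E ∘ φ) k) := by
    intro k z hz hLz
    obtain ⟨i, j, hij, hd⟩ := dir4 (E ∘ φ) (hE.comp hφ.injective) (fun n => hA (hEA _)) z
      (fun i => hA (hz i)) (hLz.comp hφ) k k
    exact ⟨i, j, hij, Subgroup.subset_closure ⟨A.mul_mem (hz j) (A.inv_mem (hz i)), hd⟩⟩
  refine engine A hP (countable_AffG.mono hA) (fun k => Tl (E ∘ φ) k) (Tl_anti _) hcl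
    (fun k => ?_) (fun k => ?_)
  · have h := hidx _ HH_le (hfour k)
    exact ⟨h.1, h.2.1⟩
  · rintro _ ⟨n, -, rfl⟩
    exact (hidx _ HH_le (hfour k)).2.2 _

end Pool.Agent.Run7.h783.GS
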