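import Mathlib
import Pool.Agent.Run7.h783.GS.Cnx

set_option autoImplicit false

/-!
The local condition for translations by factorials; counting.
-/

namespace Pool.Agent.Run7.h783.GS

open Finset Filter
open Pool.Agent.H732R3.BigQ (Big)
open Pool.Agent.Run7.h783.RecSeq

theorem avoid {ι : Type} (p : ℕ) (hp : p.Prime) (W : Finset ι) (hW : W.card < p) (a b : ι → ℤ)
    (ha : ∀ w ∈ W, ¬ (p : ℤ) ∣ a w) : ∃ n : ℤ, ∀ w ∈ W, ¬ (p : ℤ) ∣ a w * n + b w := by
  classical
  haveI : Fact p.Prime := ⟨hp⟩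
  set R : Finset (ZMod p) := W.image fun w => -(b w : ZMod p) / (a w : ZMod p) with hR
  have h1 : R.card < (univ : Finset (ZMod p)).card := by
    rw [card_univ, ZMod.card]
    exact lt_of_le_of_lt card_image_le hW
  obtain ⟨y, -, hy⟩ := Finset.exists_mem_notMem_of_card_lt_card h1
  obtain ⟨n, rfl⟩ := ZMod.intCast_surjective y
  refine ⟨n, fun w hw hd => hy ?_⟩
  have h2 := (ZMod.intCast_zmod_eq_zero_iff_dvd _ p).2 hd
  have h3 : (a w : ZMod p) ≠ 0 := fun h => ha w hw ((ZMod.intCast_zmod_eq_zero_iff_dvd _ p).1 h)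
  rw [hR, mem_image]
  refine ⟨w, hw, ?_⟩
  push_cast at h2
  rw [div_eq_iff h3]
  linear_combination -h2

/-- translations -/
def Tr (t : ℚ) : PQ := aff 1 t one_pos

theorem Tr_apply (t x : ℚ) : Tr t x = x + t := by rw [Tr, aff_apply, one_mul]

theorem Tr_mem (t : ℚ) : Tr t ∈ AffG := aff_mem _ _ _

theorem Tr_add (s t : ℚ) : Tr s * Tr t = Tr (s + t) := by
  ext x
  rw [Equiv.Perm.mul_apply, Tr_apply, Tr_apply, Tr_apply]
  ring

theorem Tr_zero : Tr 0 = 1 := by
  ext x; rw [Tr_apply]; simp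

theorem Tr_inv (t : ℚ) : (Tr t)⁻¹ = Tr (-t) := by
  rw [inv_eq_iff_mul_eq_one, Tr_add, add_neg_cancel, Tr_zero]

/-- the sequence of translations by factorials -/
def TF (n : ℕ) : PQ := Tr (((n + 3).factorial : ℕ) : ℚ)

theorem TF_inj : Function.Injective TF := by
  intro i j h
  have h1 : TF i 0 = TF j 0 := by rw [h]
  rw [TF, TF, Tr_apply, Tr_apply, zero_add, zero_add] at h1
  have h2 : (i + 3).factorial = (j + 3).factorial := by exact_mod_cast h1
  have h3 := (Nat.factorial_inj (by omega)).1 h2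
  omega

theorem ready_tr (z : Fin 4 → PQ) (α β : ℚ) (hα : 0 < α) (a b : Fin 4 → ℤ) (ha : ∀ i, 0 < a i)
    (hz : ∀ (i : Fin 4) (n : ℤ), z i (α * n + β) = a i * n + b i)
    (hloc : ∀ p : ℕ, p.Prime → ∃ n : ℤ, ∀ i, ¬ (p : ℤ) ∣ a i * n + b i) : LCB TF z := by
  classical
  intro L
  set n₀ : ℕ := L + ∑ i, (a i).natAbs with hn₀
  refine ⟨n₀, fun W hW hw => ?_⟩
  choose! n hn i hi using hw
  refine ⟨α, β, hα, fun w => a (i w), fun w => b (i w) + (((n w + 3).factorial : ℕ) : ℤ), ?_, ?_⟩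
  · intro w hwW
    refine ⟨ha _, fun m => ?_⟩
    conv_lhs => rw [hi w hwW]
    rw [Equiv.Perm.mul_apply, hz, TF, Tr_apply]
    push_cast
    ring
  · intro p hp
    by_cases hpn : p ≤ n₀ + 3
    · obtain ⟨m, hm⟩ := hloc p hp
      refine ⟨m, fun w hwW hd => hm (i w) ?_⟩
      have h1 : (p : ℤ) ∣ (((n w + 3).factorial : ℕ) : ℤ) := by
        have h2 : p ∣ (n w + 3).factorial := Nat.dvd_factorial hp.pos (by have := hn w hwW; omega)
        exact_mod_cast h2
      have h3 := dvd_sub hd h1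
      have h4 : a (i w) * m + (b (i w) + (((n w + 3).factorial : ℕ) : ℤ)) -
        (((n w + 3).factorial : ℕ) : ℤ) = a (i w) * m + b (i w) := by ring
      rwa [h4] at h3
    · apply avoid p hp W (by omega)
      intro w _ hd
      have h1 := Int.le_of_dvd (ha (i w)) hd
      have h2 : (a (i w)).natAbs ≤ ∑ i, (a i).natAbs :=
        single_le_sum (f := fun i => (a i).natAbs) (fun _ _ => Nat.zero_le _) (mem_univ (i w))
      have h3 : ((a (i w)).natAbs : ℤ) = a (i w) := Int.natAbs_of_nonneg (ha _).le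
      have h4 : ((a (i w)).natAbs : ℤ) < p := by exact_mod_cast (by omega : (a (i w)).natAbs < p)
      omega

/-- dilations with centre `1` -/
theorem ready_dil (u : Fin 4 → ℚ) (hu : ∀ i, 0 < u i) :
    LCB TF (fun i => aff (u i) (1 - u i) (hu i)) := by
  classical
  set D : ℕ := ∏ j, (u j).den with hD
  have hDi : ∀ i, (u i).den ∣ D := fun i => dvd_prod_of_mem (fun j => (u j).den) (mem_univ i)
  choose e he using hDi
  have hD0 : 0 < D := prod_pos fun j _ => (u j).den_pos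
  have he0 : ∀ i, 0 < e i := fun i => Nat.pos_of_ne_zero fun h => by
    have := he i
    rw [h, mul_zero] at this
    omega
  have hnum : ∀ i, 0 < (u i).num := fun i => Rat.num_pos.2 (hu i)
  refine ready_tr _ (D : ℚ) 1 (by exact_mod_cast hD0) (fun i => (u i).num * e i) (fun _ => 1)
    (fun i => mul_pos (hnum i) (by exact_mod_cast he0 i)) ?_ ?_
  · intro i n
    rw [aff_apply]
    have h1 : u i * (D : ℚ) = (u i).num * e i := by
      rw [he i]
      push_cast
      rw [← mul_assoc, Rat.mul_den_eq_num]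
    push_cast
    linear_combination (n : ℚ) * h1
  · intro p hp
    refine ⟨0, fun i hd => ?_⟩
    rw [mul_zero, zero_add] at hd
    have h1 := Int.le_of_dvd one_pos hd
    have := hp.two_le
    omega

/-- translations by multiples of six -/
theorem ready_six : LCB TF (fun i : Fin 4 => Tr (6 * (i : ℕ))) := by
  classical
  refine ready_tr _ 1 0 one_pos (fun _ => 1) (fun i => 6 * (i : ℕ)) (fun _ => one_pos) ?_ ?_
  · intro i n
    rw [Tr_apply]
    push_cast
    ring
  · intro p hp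
    rcases Nat.lt_or_ge p 5 with h5 | h5
    · refine ⟨1, fun i hd => ?_⟩
      have h2 := hp.two_le
      have hp4 : p ≠ 4 := by rintro rfl; exact absurd hp (by decide)
      have h23 : (p : ℤ) ∣ 6 := by
        have : p = 2 ∨ p = 3 := by omega
        rcases this with rfl | rfl <;> decide
      have h3 : (p : ℤ) ∣ 1 := by
        have h4 := dvd_sub hd (h23.mul_right ((i : ℕ) : ℤ))
        have h6 : (1 : ℤ) * 1 + 6 * ((i : ℕ) : ℤ) - 6 * ((i : ℕ) : ℤ) = 1 := by ring
        rwa [h6] at h4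
      have h1 := Int.le_of_dvd one_pos h3
      omega
    · obtain ⟨n, hn⟩ := avoid p hp (univ : Finset (Fin 4)) (by rw [card_univ, Fintype.card_fin]; omega)
        (fun _ => 1) (fun i => 6 * ((i : ℕ) : ℤ)) (fun _ _ hd => by
          have h1 := Int.le_of_dvd one_pos hd
          omega)
      exact ⟨n, fun i => hn i (mem_univ i)⟩

/-- counting -/
theorem pr_count {W : Finset PQ} (hW : Pr W) (hne : W.Nonempty) (hA : ∀ σ ∈ W, σ ∈ AffG) (η : ℝ)
    (hη : 0 < η) : ∃ᶠ X : ℝ in atTop, X ^ (1 - η) ≤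
      ({x : ℚ | (x : ℝ) ≤ X ∧ ∀ σ ∈ W, ∃ p : ℕ, p.Prime ∧ σ x = p}.ncard : ℝ) := by
  classical
  obtain ⟨α, β, hα, hB⟩ := hW
  set κ : ℝ := α + |(β : ℝ)| with hκ
  have hα' : (0 : ℝ) < α := by exact_mod_cast hα
  have hκ0 : 0 < κ := by have := abs_nonneg (β : ℝ); linarith
  have ht : Tendsto (fun x : ℝ => κ * x) atTop atTop := tendsto_id.const_mul_atTop hκ0
  refine ht.frequently (((hB (η / 2) (by linarith)).and_eventually
    ((tendsto_rpow_atTop (show 0 < η / 2 by linarith)).eventually_ge_atTop (κ ^ (1 - η)) |>.and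
      (eventually_ge_atTop (1 : ℝ)))).mono ?_)
  rintro x ⟨h1, h2, h3⟩
  have hx0 : 0 < x := by linarith
  have h4 : (κ * x) ^ (1 - η) ≤ x ^ (1 - η / 2) := by
    rw [Real.mul_rpow hκ0.le hx0.le]
    calc κ ^ (1 - η) * x ^ (1 - η) ≤ x ^ (η / 2) * x ^ (1 - η) :=
          mul_le_mul_of_nonneg_right h2 (Real.rpow_nonneg hx0.le _)
      _ = x ^ (1 - η / 2) := by
          rw [← Real.rpow_add hx0]; congr 1; ring
  refine h4.trans (h1.trans ?_)
  have hinj : Function.Injective (fun n : ℕ => α * (n : ℚ) + β) := by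
    intro n m h
    have e1 : α * (n : ℚ) = α * m := by
      have : α * (n : ℚ) + β = α * m + β := h
      linarith
    exact_mod_cast mul_left_cancel₀ hα.ne' e1
  rw [← Set.ncard_image_of_injective _ hinj]
  have hfin : {y : ℚ | (y : ℝ) ≤ κ * x ∧ ∀ σ ∈ W, ∃ p : ℕ, p.Prime ∧ σ y = p}.Finite := by
    obtain ⟨σ, hσ⟩ := hne
    obtain ⟨u, v, hu, huv⟩ := hA σ hσ
    have hu' : (0 : ℝ) < u := by exact_mod_cast hu
    apply Set.Finite.subset ((Set.finite_Iic ⌊(u : ℝ) * (κ * x) + v⌋₊).image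
      (fun p : ℕ => ((p : ℚ) - v) / u))
    rintro y ⟨hy1, hy2⟩
    obtain ⟨p, -, hp⟩ := hy2 σ hσ
    rw [huv] at hp
    refine ⟨p, ?_, ?_⟩
    · rw [Set.mem_Iic]
      apply Nat.le_floor
      have h5 : ((p : ℚ) : ℝ) = u * y + v := by rw [← hp]; push_cast; ring
      rw [Rat.cast_natCast] at h5
      rw [h5]
      have := mul_le_mul_of_nonneg_left hy1 hu'.le
      linarith
    · show ((p : ℚ) - v) / u = y
      rw [← hp]
      field_simp
      ring
  have hsub : (fun n : ℕ => α * (n : ℚ) + β) '' {n : ℕ | n ∈ {n : ℕ | ∀ σ ∈ W, ∃ p : ℕ, p.Prime ∧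
      σ (α * n + β) = p} ∧ (n : ℝ) ≤ x} ⊆
      {y : ℚ | (y : ℝ) ≤ κ * x ∧ ∀ σ ∈ W, ∃ p : ℕ, p.Prime ∧ σ y = p} := by
    rintro _ ⟨n, ⟨hn, hnx⟩, rfl⟩
    refine ⟨?_, hn⟩
    push_cast
    rw [hκ, add_mul]
    have e2 : (β : ℝ) ≤ |(β : ℝ)| * x := by
      calc (β : ℝ) ≤ |(β : ℝ)| := le_abs_self _
        _ ≤ |(β : ℝ)| * x := le_mul_of_one_le_right (abs_nonneg _) h3
    have e3 : (α : ℝ) * n ≤ α * x := mul_le_mul_of_nonneg_left hnx hα'.le
    linarith
  exact_mod_cast Set.ncard_le_ncard hsub hfin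

end Pool.Agent.Run7.h783.GS
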