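import Mathlib
import Pool.Agent.Run7.h783.GS.Loc

set_option autoImplicit false

/-!
The group of all increasing affine maps of the rationals: the subgroups of finite index contain all translations.
-/

namespace Pool.Agent.Run7.h783.GS

open Finset Filter

/-- the slope of an affine map -/
def sl (σ : PQ) : ℚ := σ 1 - σ 0

theorem sl_eq {σ : PQ} {u v : ℚ} (h : ∀ x, σ x = u * x + v) : sl σ = u ∧ σ 0 = v := by
  rw [sl, h, h]
  constructor <;> ring

theorem eq_sl {σ : PQ} (h : σ ∈ AffG) : 0 < sl σ ∧ ∀ x, σ x = sl σ * x + σ 0 := by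
  obtain ⟨u, v, hu, huv⟩ := h
  obtain ⟨h1, h2⟩ := sl_eq huv
  rw [h1, h2]
  exact ⟨hu, huv⟩

theorem sl_mul {σ τ : PQ} (hσ : σ ∈ AffG) (hτ : τ ∈ AffG) : sl (σ * τ) = sl σ * sl τ := by
  have h1 := (eq_sl hσ).2
  have h2 := (eq_sl hτ).2
  refine (sl_eq (σ := σ * τ) (u := sl σ * sl τ) (v := sl σ * τ 0 + σ 0) fun x => ?_).1
  rw [Equiv.Perm.mul_apply, h1, h2 x]
  ring

theorem sl_inv {σ : PQ} (hσ : σ ∈ AffG) : sl σ⁻¹ = (sl σ)⁻¹ := by
  have h1 := sl_mul (AffG.inv_mem hσ) hσ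
  have h2 : sl (1 : PQ) = 1 := by simp [sl]
  rw [inv_mul_cancel, h2] at h1
  exact eq_inv_of_mul_eq_one_left h1.symm

theorem sl_aff (u v : ℚ) (hu : 0 < u) : sl (aff u v hu) = u := (sl_eq (aff_apply u v hu)).1

/-- equal slopes: the quotient is a translation -/
theorem tr_of_sl {σ τ : PQ} (hσ : σ ∈ AffG) (hτ : τ ∈ AffG) (h : sl σ = sl τ) :
    ∃ t, σ * τ⁻¹ = Tr t := by
  refine ⟨σ 0 - τ 0, ?_⟩
  rw [mul_inv_eq_iff_eq_mul]
  ext x
  rw [Equiv.Perm.mul_apply, Tr_apply, (eq_sl hσ).2 x, (eq_sl hτ).2 x, h]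
  ring

theorem mem_of_sl {H : Subgroup PQ} (hT : ∀ t, Tr t ∈ H) {σ τ : PQ} (hσ : σ ∈ AffG) (hτ : τ ∈ AffG)
    (h : sl σ = sl τ) (hH : τ ∈ H) : σ ∈ H := by
  obtain ⟨t, ht⟩ := tr_of_sl hσ hτ h
  have h1 := H.mul_mem (hT t) hH
  rwa [← ht, inv_mul_cancel_right] at h1

theorem Tr_nsmul {H : Subgroup PQ} {t : ℚ} (h : Tr t ∈ H) (n : ℕ) : Tr (n * t) ∈ H := by
  induction n with
  | zero => rw [Nat.cast_zero, zero_mul, Tr_zero]; exact H.one_mem
  | succ n ih =>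
    have h1 := H.mul_mem ih h
    rw [Tr_add] at h1
    rwa [show ((n + 1 : ℕ) : ℚ) * t = n * t + t by push_cast; ring]

/-- all translations are in `H` -/
theorem all_tr (H : Subgroup PQ) (hHA : H ≤ AffG)
    (h : ∀ z : Fin 4 → PQ, (∀ i, z i ∈ AffG) → LCB TF z → ∃ i j : Fin 4, i < j ∧ z j * (z i)⁻¹ ∈ H) (t : ℚ) :
    Tr t ∈ H := by
  classical
  -- a nonzero translation
  obtain ⟨t₀, ht₀, hH₀⟩ : ∃ t₀ : ℚ, t₀ ≠ 0 ∧ Tr t₀ ∈ H := by
    obtain ⟨i, j, hij, hm⟩ := h _ (fun i => Tr_mem _) ready_six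
    rw [Tr_inv, Tr_add] at hm
    refine ⟨_, ?_, hm⟩
    have h1 : ((i : ℕ) : ℚ) < ((j : ℕ) : ℚ) := by exact_mod_cast hij
    intro h0
    linarith
  -- division by primes
  have hdiv : ∀ p : ℕ, p.Prime → ∀ t, Tr t ∈ H → Tr (t / p) ∈ H := by
    intro p hp t ht
    have hp0 : (0 : ℚ) < p := by exact_mod_cast hp.pos
    have hpp : ∀ i : Fin 4, (0 : ℚ) < (p : ℚ) ^ (i : ℕ) := fun i => pow_pos hp0 _
    obtain ⟨i, j, hij, hm⟩ := h _ (fun i => aff_mem _ _ (hpp i)) (ready_dil _ hpp)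
    set g : PQ := aff ((p : ℚ) ^ (j : ℕ)) (1 - (p : ℚ) ^ (j : ℕ)) (hpp j) *
      (aff ((p : ℚ) ^ (i : ℕ)) (1 - (p : ℚ) ^ (i : ℕ)) (hpp i))⁻¹ with hg
    have hgA : g ∈ AffG := hHA hm
    obtain ⟨e, he⟩ : ∃ e : ℕ, (j : ℕ) = i + (e + 1) := ⟨(j : ℕ) - i - 1, by have := Fin.lt_def.1 hij; omega⟩
    have hsl : sl g = (p : ℚ) ^ (e + 1) := by
      rw [hg, sl_mul (aff_mem _ _ _) (AffG.inv_mem (aff_mem _ _ _)), sl_inv (aff_mem _ _ _), sl_aff,
        sl_aff, he, pow_add]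
      field_simp
    clear_value g
    have h1 : g⁻¹ * Tr t * g = Tr (t / (p : ℚ) ^ (e + 1)) := by
      rw [mul_assoc, inv_mul_eq_iff_eq_mul]
      ext x
      rw [Equiv.Perm.mul_apply, Equiv.Perm.mul_apply, Tr_apply, Tr_apply, (eq_sl hgA).2 x,
        (eq_sl hgA).2 (x + t / (p : ℚ) ^ (e + 1)), hsl]
      field_simp
      ring
    have h2 : Tr (t / (p : ℚ) ^ (e + 1)) ∈ H := by
      rw [← h1]
      exact H.mul_mem (H.mul_mem (H.inv_mem hm) ht) hm
    have h3 := Tr_nsmul h2 (p ^ e)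
    have h4 : ((p ^ e : ℕ) : ℚ) * (t / (p : ℚ) ^ (e + 1)) = t / p := by
      push_cast
      rw [pow_succ]
      field_simp
    rwa [h4] at h3
  have hdivn : ∀ n : ℕ, 0 < n → ∀ t, Tr t ∈ H → Tr (t / n) ∈ H := by
    intro n
    induction n using Nat.strong_induction_on with
    | _ n ih =>
      intro hn t ht
      rcases Nat.lt_or_ge n 2 with h1 | h1
      · have : n = 1 := by omega
        subst this
        simpa using ht
      · have hp := Nat.minFac_prime (show n ≠ 1 by omega)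
        obtain ⟨m, hm⟩ := Nat.minFac_dvd n
        have hm0 : 0 < m := Nat.pos_of_ne_zero fun h => by rw [h, mul_zero] at hm; omega
        have hmn : m < n := by
          have := hp.two_le
          nlinarith
        have h2 := hdiv _ hp _ (ih m hmn hm0 t ht)
        have h3 : t / (m : ℚ) / (n.minFac : ℚ) = t / n := by
          have h4 : (n : ℚ) = n.minFac * m := by exact_mod_cast hm
          rw [h4, div_div, mul_comm]
        rwa [h3] at h2
  -- all translations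
  have h1 : t = (t / t₀).num * (t₀ / (t / t₀).den) := by
    have h2 : ((t / t₀).num : ℚ) / (t / t₀).den = t / t₀ := Rat.num_div_den _
    calc t = t / t₀ * t₀ := by field_simp
      _ = ((t / t₀).num : ℚ) / (t / t₀).den * t₀ := by rw [h2]
      _ = _ := by ring
  have h2 := hdivn _ (t / t₀).den_pos _ hH₀
  rw [h1]
  generalize (t / t₀).num = m at h1 ⊢
  rcases Int.eq_nat_or_neg m with ⟨n, rfl | rfl⟩
  · have := Tr_nsmul h2 n
    push_cast
    exact this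
  · have := H.inv_mem (Tr_nsmul h2 n)
    rw [Tr_inv] at this
    push_cast
    rwa [neg_mul]

theorem aff_idx (H : Subgroup PQ) (hHA : H ≤ AffG)
    (h : ∀ z : Fin 4 → PQ, (∀ i, z i ∈ AffG) → LCB TF z → ∃ i j : Fin 4, i < j ∧ z j * (z i)⁻¹ ∈ H) :
    H.relIndex AffG ≠ 0 ∧ H.relIndex AffG ≤ 3 ∧ ∀ n, TF n ∈ H := by
  have hT := all_tr H hHA h
  have h1 := index_le AffG H (fun z hz => by
    have hpos : ∀ i, 0 < sl (z i) := fun i => (eq_sl (hz i)).1
    obtain ⟨i, j, hij, hm⟩ := h _ (fun i => aff_mem _ _ (hpos i)) (ready_dil _ hpos)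
    refine ⟨i, j, hij, mem_of_sl hT (AffG.mul_mem (hz j) (AffG.inv_mem (hz i))) (hHA hm) ?_ hm⟩
    rw [sl_mul (hz j) (AffG.inv_mem (hz i)), sl_inv (hz i),
      sl_mul (aff_mem _ _ _) (AffG.inv_mem (aff_mem _ _ _)), sl_inv (aff_mem _ _ _), sl_aff, sl_aff])
  exact ⟨h1.1, h1.2, fun n => hT _⟩

/-- two of four elements are in the same coset -/
theorem four_of_index (A H : Subgroup PQ) (h0 : H.relIndex A ≠ 0) (h3 : H.relIndex A ≤ 3)
    (z : Fin 4 → PQ) (hz : ∀ i, z i ∈ A) : ∃ i j : Fin 4, i < j ∧ z j * (z i)⁻¹ ∈ H := by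
  classical
  have hfin : Finite (A ⧸ H.subgroupOf A) := by
    have : (H.subgroupOf A).index ≠ 0 := h0
    exact Nat.finite_of_card_ne_zero this
  have := Fintype.ofFinite (A ⧸ H.subgroupOf A)
  have hcard : Fintype.card (A ⧸ H.subgroupOf A) < Fintype.card (Fin 4) := by
    have h1 : H.relIndex A = Fintype.card (A ⧸ H.subgroupOf A) := by
      rw [Subgroup.relIndex, Subgroup.index, Nat.card_eq_fintype_card]
    rw [Fintype.card_fin]
    omega
  obtain ⟨i, j, hij, he⟩ := Fintype.exists_ne_map_eq_of_card_lt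
    (fun i : Fin 4 => (QuotientGroup.mk (⟨(z i)⁻¹, A.inv_mem (hz i)⟩ : A) : A ⧸ H.subgroupOf A)) hcard
  rw [QuotientGroup.eq, Subgroup.mem_subgroupOf] at he
  have he' : z i * (z j)⁻¹ ∈ H := by simpa using he
  rcases lt_or_gt_of_ne hij with h | h
  · refine ⟨i, j, h, ?_⟩
    have h1 := H.inv_mem he'
    rwa [mul_inv_rev, inv_inv] at h1
  · exact ⟨j, i, h, he'⟩

/-- finite index at most three: all translations -/
theorem all_tr' (H : Subgroup PQ) (h0 : H.relIndex AffG ≠ 0) (h3 : H.relIndex AffG ≤ 3) (t : ℚ) :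
    Tr t ∈ H := by
  obtain ⟨i, j, hij, hm⟩ := four_of_index AffG H h0 h3 (fun i => Tr ((i : ℕ) * (t / 6))) (fun i => Tr_mem _)
  rw [Tr_inv, Tr_add] at hm
  obtain ⟨e, he, he6⟩ : ∃ e : ℕ, (j : ℕ) = i + e ∧ e ∣ 6 := by
    refine ⟨(j : ℕ) - i, by have := Fin.lt_def.1 hij; omega, ?_⟩
    have h1 := Fin.lt_def.1 hij
    have h2 := j.2
    have h3 : (j : ℕ) - i = 1 ∨ (j : ℕ) - i = 2 ∨ (j : ℕ) - i = 3 := by omega
    rcases h3 with h | h | h <;> rw [h] <;> decide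
  obtain ⟨c, hc⟩ := he6
  have h1 := Tr_nsmul hm c
  have h2 : (c : ℚ) * ((j : ℕ) * (t / 6) + -((i : ℕ) * (t / 6))) = t := by
    have h4 : ((j : ℕ) : ℚ) = i + e := by exact_mod_cast he
    have h5 : (6 : ℚ) = e * c := by exact_mod_cast hc
    rw [h4]
    have h6 : (c : ℚ) * ((i + e) * (t / 6) + -((i : ℕ) * (t / 6))) = (e * c) * (t / 6) := by ring
    rw [h6, ← h5]
    ring
  rwa [h2] at h1

/-- **All affine maps with slopes in a subgroup of index at most three in one sequence.** -/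
theorem final_aff : ∃ U : Subgroup ℚˣ, -1 ∈ U ∧ 1 ≤ U.index ∧ U.index ≤ 3 ∧
    ∃ f : ℕ → ℚ × ℚ, Function.Injective f ∧
      Set.range f = {w : ℚ × ℚ | 0 < w.1 ∧ ∃ h ∈ U, (h : ℚ) = w.1} ∧
      ∀ k : ℕ, ∃ i₀ : ℕ, ∀ i ≥ i₀, ∀ η : ℝ, 0 < η → ∃ᶠ X : ℝ in atTop, X ^ (1 - η) ≤
        ({x : ℚ | (x : ℝ) ≤ X ∧ ∀ j ≤ k, ∃ p : ℕ, p.Prime ∧
          (f (i + j)).1 * x + (f (i + j)).2 = p}.ncard : ℝ) := by
  classical
  obtain ⟨H, hHA, h0, h3, y, hy1, hy2, hy3⟩ := main AffG le_rfl TF TF_inj (fun n => Tr_mem _) (by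
    have h := ready_tr (fun _ => 1) 1 0 one_pos (fun _ => 1) (fun _ => 0) (fun _ => one_pos)
      (fun i n => by simp) (fun p hp => ⟨1, fun _ hd => by
        have h1 := Int.le_of_dvd (by norm_num) hd
        have := hp.two_le
        omega⟩)
    exact h) aff_idx
  have hT := all_tr' H h0 h3
  have hyH : ∀ i, y i ∈ H := fun i => by
    have : y i ∈ Set.range y := ⟨i, rfl⟩
    rw [hy2] at this
    exact this
  have habs : ∀ u : ℚˣ, 0 < |(u : ℚ)| := fun u => abs_pos.2 u.ne_zero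
  -- the group of the slopes
  set U : Subgroup ℚˣ :=
    { carrier := {u | aff |(u : ℚ)| 0 (habs u) ∈ H}
      one_mem' := by
        have h1 : aff |((1 : ℚˣ) : ℚ)| 0 (habs 1) = 1 := by
          ext x
          rw [aff_apply]
          simp
        show aff |((1 : ℚˣ) : ℚ)| 0 (habs 1) ∈ H
        rw [h1]
        exact H.one_mem
      mul_mem' := by
        intro a b ha hb
        have h1 : aff |((a * b : ℚˣ) : ℚ)| 0 (habs _) = aff |(a : ℚ)| 0 (habs a) * aff |(b : ℚ)| 0 (habs b) := by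
          ext x
          rw [Equiv.Perm.mul_apply, aff_apply, aff_apply, aff_apply, Units.val_mul, abs_mul]
          ring
        show aff |((a * b : ℚˣ) : ℚ)| 0 (habs _) ∈ H
        rw [h1]
        exact H.mul_mem ha hb
      inv_mem' := by
        intro a ha
        have h1 : aff |((a⁻¹ : ℚˣ) : ℚ)| 0 (habs _) = (aff |(a : ℚ)| 0 (habs a))⁻¹ := by
          rw [eq_inv_iff_mul_eq_one]
          ext x
          rw [Equiv.Perm.mul_apply, aff_apply, aff_apply, Units.val_inv_eq_inv_val, abs_inv]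
          have := (habs a).ne'
          field_simp
          simp
        show aff |((a⁻¹ : ℚˣ) : ℚ)| 0 (habs _) ∈ H
        rw [h1]
        exact H.inv_mem ha } with hU
  have hUm : ∀ u : ℚˣ, u ∈ U ↔ aff |(u : ℚ)| 0 (habs u) ∈ H := fun u => Iff.rfl
  have hUH : ∀ (u v : ℚ) (hu : 0 < u), aff u v hu ∈ H ↔ ∃ h ∈ U, (h : ℚ) = u := by
    intro u v hu
    constructor
    · intro h
      refine ⟨Units.mk0 u hu.ne', ?_, rfl⟩
      rw [hUm]
      refine mem_of_sl hT (aff_mem _ _ _) (aff_mem _ _ _) ?_ h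
      rw [sl_aff, sl_aff, Units.val_mk0, abs_of_pos hu]
    · rintro ⟨h, hh, hhu⟩
      rw [hUm] at hh
      refine mem_of_sl hT (aff_mem _ _ _) (aff_mem _ _ _) ?_ hh
      rw [sl_aff, sl_aff, hhu, abs_of_pos hu]
  have hidx := index_le (⊤ : Subgroup ℚˣ) U (fun z _ => by
    obtain ⟨i, j, hij, hm⟩ := four_of_index AffG H h0 h3 (fun i => aff |((z i : ℚˣ) : ℚ)| 0 (habs _))
      (fun i => aff_mem _ _ _)
    refine ⟨i, j, hij, ?_⟩
    rw [hUm]
    refine mem_of_sl hT (aff_mem _ _ _) (hHA hm) ?_ hm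
    rw [sl_aff, sl_mul (aff_mem _ _ _) (AffG.inv_mem (aff_mem _ _ _)), sl_inv (aff_mem _ _ _), sl_aff,
      sl_aff, Units.val_mul, Units.val_inv_eq_inv_val, abs_mul, abs_inv])
  rw [Subgroup.relIndex_top_right] at hidx
  refine ⟨U, ?_, Nat.one_le_iff_ne_zero.2 hidx.1, hidx.2, fun i => (sl (y i), y i 0), ?_, ?_, ?_⟩
  · rw [hUm]
    have h1 : aff |((-1 : ℚˣ) : ℚ)| 0 (habs _) = 1 := by
      ext x
      rw [aff_apply]
      simp
    rw [h1]
    exact H.one_mem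
  · intro i j hij
    apply hy1
    have h1 := (eq_sl (hHA (hyH i))).2
    have h2 := (eq_sl (hHA (hyH j))).2
    ext x
    rw [h1 x, h2 x]
    have e1 : sl (y i) = sl (y j) := congrArg Prod.fst hij
    have e2 : y i 0 = y j 0 := congrArg Prod.snd hij
    rw [e1, e2]
  · ext ⟨u, v⟩
    constructor
    · rintro ⟨i, hi⟩
      have e1 : sl (y i) = u := congrArg Prod.fst hi
      have e2 : y i 0 = v := congrArg Prod.snd hi
      have h1 := eq_sl (hHA (hyH i))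
      rw [e1, e2] at h1
      refine ⟨h1.1, (hUH u v h1.1).1 ?_⟩
      have h2 : aff u v h1.1 = y i := by
        ext x
        rw [aff_apply, h1.2]
      rw [h2]
      exact hyH i
    · rintro ⟨hu, hh⟩
      have h1 := (hUH u v hu).2 hh
      have h2 : aff u v hu ∈ Set.range y := by rw [hy2]; exact h1
      obtain ⟨i, hi⟩ := h2
      refine ⟨i, ?_⟩
      show (sl (y i), y i 0) = (u, v)
      rw [hi, sl_aff, aff_apply, mul_zero, zero_add]
  · intro k
    obtain ⟨i₀, hi₀⟩ := hy3 (k + 1) (by omega)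
    refine ⟨i₀, fun i hi η hη => ?_⟩
    have hPr := hi₀ i hi
    have h1 := pr_count hPr (by
      rw [image_nonempty]
      exact ⟨0, mem_range.2 (by omega)⟩) (by
      intro σ hσ
      obtain ⟨j, -, rfl⟩ := mem_image.1 hσ
      exact hHA (hyH _)) η hη
    refine h1.mono fun X hX => hX.trans (le_of_eq ?_)
    congr 2
    ext x
    constructor
    · rintro ⟨hx1, hx2⟩
      refine ⟨hx1, fun j hj => ?_⟩
      obtain ⟨p, hp, hp'⟩ := hx2 (y (i + j)) (mem_image.2 ⟨j, mem_range.2 (by omega), rfl⟩)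
      exact ⟨p, hp, by rw [← hp', (eq_sl (hHA (hyH (i + j)))).2 x]⟩
    · rintro ⟨hx1, hx2⟩
      refine ⟨hx1, fun σ hσ => ?_⟩
      obtain ⟨j, hj, rfl⟩ := mem_image.1 hσ
      obtain ⟨p, hp, hp'⟩ := hx2 j (by have := mem_range.1 hj; omega)
      exact ⟨p, hp, by rw [← hp', (eq_sl (hHA (hyH (i + j)))).2 x]⟩

end Pool.Agent.Run7.h783.GS
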