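import Mathlib
import Pool.Agent.Run7.h783.GS.AffM

set_option autoImplicit false

/-!
The powers of one affine map `x ↦ a + d x`.
-/

namespace Pool.Agent.Run7.h783.GS

open Finset Filter

/-- the constant term of the `s`-th iterate -/
def cst (a d : ℤ) (s : ℕ) : ℤ := a * ∑ l ∈ range s, d ^ l

/-- the map `x ↦ a + d x` -/
def TM (a d : ℤ) (hd : 0 < d) : PQ := aff (d : ℚ) a (by exact_mod_cast hd)

theorem TM_apply (a d : ℤ) (hd : 0 < d) (x : ℚ) : TM a d hd x = d * x + a := rfl

theorem TM_mem (a d : ℤ) (hd : 0 < d) : TM a d hd ∈ AffG := aff_mem _ _ _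

theorem TM_pow (a d : ℤ) (hd : 0 < d) (s : ℕ) (x : ℚ) :
    (TM a d hd ^ s) x = (d ^ s : ℤ) * x + (cst a d s : ℤ) := by
  induction s generalizing x with
  | zero => simp [cst]
  | succ s ih =>
    rw [pow_succ, Equiv.Perm.mul_apply, TM_apply, ih]
    have h1 : cst a d (s + 1) = d ^ s * a + cst a d s := by
      rw [cst, cst, sum_range_succ]; ring
    rw [h1]
    push_cast
    ring

theorem TM_inj (a d : ℤ) (hd : 0 < d) (h1 : ¬ (a = 0 ∧ d = 1)) : Function.Injective (fun y : ℤ => TM a d hd ^ y) := by
  have key : ∀ s : ℕ, TM a d hd ^ s = 1 → s = 0 := by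
    intro s hs
    by_contra h0
    have e0 := TM_pow a d hd s 0
    have e1 := TM_pow a d hd s 1
    rw [hs, Equiv.Perm.one_apply] at e0 e1
    have f1 : ((d ^ s : ℤ) : ℚ) = 1 := by linarith
    have f2 : d ^ s = 1 := by exact_mod_cast f1
    have f3 : d = 1 := by
      rcases lt_or_ge (1 : ℤ) d with h | h
      · have := one_lt_pow₀ h h0
        omega
      · omega
    have f4 : ((cst a d s : ℤ) : ℚ) = 0 := by linarith
    have f5 : cst a d s = 0 := by exact_mod_cast f4
    rw [cst, f3] at f5
    simp only [one_pow, sum_const, card_range, mul_one, nsmul_eq_mul] at f5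
    rcases mul_eq_zero.1 f5 with h | h
    · exact h1 ⟨h, f3⟩
    · exact h0 (by exact_mod_cast h)
  intro y y' h
  have h2 : TM a d hd ^ (y - y') = 1 := by
    have h' : TM a d hd ^ y = TM a d hd ^ y' := h
    rw [zpow_sub, h', mul_inv_cancel]
  have h3 : TM a d hd ^ (y - y').natAbs = 1 := by
    rcases Int.natAbs_eq (y - y') with h4 | h4
    · rw [h4] at h2
      rwa [zpow_natCast] at h2
    · rw [h4, zpow_neg, inv_eq_one, zpow_natCast] at h2
      exact h2
  have h4 := key _ h3
  omega

/-- periods modulo a prime -/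
theorem per (a d : ℤ) (p : ℕ) (hp : p.Prime) (hpd : ¬ (p : ℤ) ∣ d) (s : ℕ) (hs : p * (p - 1) ∣ s) :
    (p : ℤ) ∣ d ^ s - 1 ∧ (p : ℤ) ∣ cst a d s := by
  haveI : Fact p.Prime := ⟨hp⟩
  have hd0 : (d : ZMod p) ≠ 0 := fun h => hpd ((ZMod.intCast_zmod_eq_zero_iff_dvd _ p).1 h)
  obtain ⟨t, rfl⟩ := hs
  have h1 : (d : ZMod p) ^ (p * (p - 1) * t) = 1 := by
    have : p * (p - 1) * t = (p - 1) * (p * t) := by ring
    rw [this, pow_mul, ZMod.pow_card_sub_one_eq_one hd0, one_pow]
  have h2 : (∑ l ∈ range (p * (p - 1) * t), (d : ZMod p) ^ l) = 0 := by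
    by_cases hd1 : (d : ZMod p) = 1
    · rw [hd1]
      simp
    · have h3 := geom_sum_mul (d : ZMod p) (p * (p - 1) * t)
      rw [h1, sub_self] at h3
      rcases mul_eq_zero.1 h3 with h | h
      · exact h
      · exact absurd (sub_eq_zero.1 h) hd1
  constructor
  · rw [← ZMod.intCast_zmod_eq_zero_iff_dvd]
    push_cast
    rw [h1, sub_self]
  · rw [← ZMod.intCast_zmod_eq_zero_iff_dvd, cst]
    push_cast
    rw [h2, mul_zero]

theorem cst_add (a d : ℤ) (s t : ℕ) : cst a d (s + t) = d ^ s * cst a d t + cst a d s := by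
  rw [cst, cst, cst, sum_range_add, mul_add, mul_sum, mul_sum, mul_sum, mul_sum, add_comm]
  congr 1
  apply sum_congr rfl
  intro l _
  rw [pow_add]
  ring

/-- the exponents of the sequence -/
def MM (N n : ℕ) : ℕ := 6 * N * ((n + 3).factorial * (n + 3).factorial)

theorem MM_lt (N : ℕ) (hN : 0 < N) : StrictMono (MM N) := by
  intro i j hij
  have h1 : (i + 3).factorial < (j + 3).factorial := (Nat.factorial_lt (by omega)).2 (by omega)
  have h2 : (i + 3).factorial * (i + 3).factorial < (j + 3).factorial * (j + 3).factorial :=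
    Nat.mul_self_lt_mul_self h1
  exact Nat.mul_lt_mul_of_pos_left h2 (by omega)

theorem MM_dvd (N n p : ℕ) (hp : p ≤ n + 3) (hp1 : 2 ≤ p) : p * (p - 1) ∣ MM N n := by
  apply Dvd.dvd.mul_left
  exact Nat.mul_dvd_mul (Nat.dvd_factorial (by omega) hp) (Nat.dvd_factorial (by omega) (by omega))

/-- the sequence of powers -/
def TE (a d : ℤ) (hd : 0 < d) (N n : ℕ) : PQ := TM a d hd ^ MM N n

theorem TE_inj (a d : ℤ) (hd : 0 < d) (h1 : ¬ (a = 0 ∧ d = 1)) (N : ℕ) (hN : 0 < N) :
    Function.Injective (TE a d hd N) := by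
  intro i j h
  have h2 : (fun y : ℤ => TM a d hd ^ y) (MM N i : ℤ) = (fun y : ℤ => TM a d hd ^ y) (MM N j : ℤ) := by
    simp only [zpow_natCast]
    exact h
  have h3 := TM_inj a d hd h1 h2
  exact (MM_lt N hN).injective (by exact_mod_cast h3)

/-- the local condition at small primes -/
theorem loc_small (a d : ℤ) (hc : IsCoprime a d) (h2 : 2 ∣ a * d) (N : ℕ)
    (hN3 : 3 ∣ d - 1 → ¬ 3 ∣ a → 3 ∣ N) (e : Fin 4 → ℕ) (he : ∀ i, 1 ≤ e i)
    (heN : ∀ i j, (N : ℤ) ∣ (e i : ℤ) - e j) (p : ℕ) (hp : p.Prime) :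
    ∃ n : ℤ, ∀ i, ¬ (p : ℤ) ∣ d ^ (e i) * n + cst a d (e i) := by
  have hpz : Prime (p : ℤ) := Nat.prime_iff_prime_int.1 hp
  by_cases hpd : (p : ℤ) ∣ d
  · -- all iterates are congruent to `a`
    refine ⟨0, fun i hdv => ?_⟩
    obtain ⟨s, hs⟩ : ∃ s, e i = s + 1 := ⟨e i - 1, by have := he i; omega⟩
    have h3 : cst a d (e i) = a + d * cst a d s := by
      rw [hs, add_comm s 1, cst_add]
      simp [cst]
      ring
    rw [mul_zero, zero_add, h3] at hdv
    have h4 : (p : ℤ) ∣ a := (Int.dvd_add_left (hpd.mul_right _)).1 hdv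
    exact hpz.not_isUnit (hc.isUnit_of_dvd' h4 hpd)
  · rcases Nat.lt_or_ge p 5 with h5 | h5
    · have hp2 := hp.two_le
      have hp4 : p ≠ 4 := by rintro rfl; exact absurd hp (by decide)
      have h23 : p = 2 ∨ p = 3 := by omega
      rcases h23 with rfl | rfl
      · -- `p = 2`
        have ha : (2 : ℤ) ∣ a := by
          rcases Int.prime_two.dvd_or_dvd h2 with h | h
          · exact h
          · exact absurd h (by exact_mod_cast hpd)
        refine ⟨1, fun i hdv => ?_⟩
        have h3 : (2 : ℤ) ∣ cst a d (e i) := ha.mul_right _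
        have h4 : (2 : ℤ) ∣ d ^ (e i) := by
          rw [mul_one] at hdv
          exact (Int.dvd_add_left h3).1 (by exact_mod_cast hdv)
        exact absurd (Int.prime_two.dvd_of_dvd_pow h4) (by exact_mod_cast hpd)
      · -- `p = 3`
        by_cases h31 : (3 : ℤ) ∣ d - 1
        · by_cases h3a : (3 : ℤ) ∣ a
          · refine ⟨1, fun i hdv => ?_⟩
            have h3 : (3 : ℤ) ∣ cst a d (e i) := h3a.mul_right _
            have h4 : (3 : ℤ) ∣ d ^ (e i) := by
              rw [mul_one] at hdv
              exact (Int.dvd_add_left h3).1 (by exact_mod_cast hdv)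
            exact absurd (Int.prime_three.dvd_of_dvd_pow h4) (by exact_mod_cast hpd)
          · -- all iterates are translations by the same number modulo `3`
            have h3N := hN3 h31 h3a
            have hpow : ∀ s : ℕ, (3 : ℤ) ∣ d ^ s - 1 := by
              intro s
              have := sub_dvd_pow_sub_pow d 1 s
              rw [one_pow] at this
              exact h31.trans this
            have hcst : ∀ s : ℕ, (3 : ℤ) ∣ cst a d s - a * s := by
              intro s
              induction s with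
              | zero => simp [cst]
              | succ s ih =>
                have h4 := hpow s
                have h5 : cst a d (s + 1) - a * ((s + 1 : ℕ) : ℤ) =
                    (cst a d s - a * s) + a * (d ^ s - 1) := by
                  rw [cst, cst, sum_range_succ]
                  push_cast
                  ring
                rw [h5]
                exact dvd_add ih (h4.mul_left a)
            refine ⟨1 - a * e 0, fun i hdv => ?_⟩
            have h4 : (3 : ℤ) ∣ d ^ (e i) * (1 - a * e 0) + cst a d (e i) := by exact_mod_cast hdv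
            have h5 : d ^ (e i) * (1 - a * e 0) + cst a d (e i) = (d ^ (e i) - 1) * (1 - a * e 0) +
                (cst a d (e i) - a * e i) + a * ((e i : ℤ) - e 0) + 1 := by ring
            rw [h5] at h4
            have h6 : (3 : ℤ) ∣ (d ^ (e i) - 1) * (1 - a * e 0) + (cst a d (e i) - a * e i) +
                a * ((e i : ℤ) - e 0) := by
              refine dvd_add (dvd_add ((hpow _).mul_right _) (hcst _)) ?_
              refine Dvd.dvd.mul_left ?_ a
              refine dvd_trans ?_ (heN i 0)
              exact_mod_cast h3N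
            have h7 := (Int.dvd_add_right h6).1 h4
            omega
        · -- `d ≡ 2`
          have h32 : (3 : ℤ) ∣ d + 1 := by
            have : ¬ (3 : ℤ) ∣ d := by exact_mod_cast hpd
            omega
          have hsq : (3 : ℤ) ∣ d ^ 2 - 1 := by
            have : d ^ 2 - 1 = (d + 1) * (d - 1) := by ring
            rw [this]; exact h32.mul_right _
          -- even and odd iterates
          have hev : ∀ s : ℕ, (3 : ℤ) ∣ d ^ (2 * s) - 1 ∧ (3 : ℤ) ∣ cst a d (2 * s) := by
            intro s
            have h4 : (3 : ℤ) ∣ d ^ (2 * s) - 1 := by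
              have := sub_dvd_pow_sub_pow (d ^ 2) 1 s
              rw [one_pow, ← pow_mul] at this
              exact hsq.trans this
            refine ⟨h4, ?_⟩
            induction s with
            | zero => simp [cst]
            | succ s ih =>
              have h6 : (3 : ℤ) ∣ d ^ (2 * s) - 1 := by
                have := sub_dvd_pow_sub_pow (d ^ 2) 1 s
                rw [one_pow, ← pow_mul] at this
                exact hsq.trans this
              have h5 : cst a d (2 * (s + 1)) = cst a d (2 * s) + a * d ^ (2 * s) * (d + 1) := by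
                rw [cst, cst, show 2 * (s + 1) = 2 * s + 1 + 1 by ring, sum_range_succ, sum_range_succ]
                ring
              rw [h5]
              exact dvd_add (ih h6) (h32.mul_left _)
          obtain ⟨n, hn⟩ := avoid 3 hp (univ : Finset (Fin 2)) (by rw [card_univ, Fintype.card_fin]; omega)
            ![1, d] ![0, a] (by
              intro w _
              fin_cases w
              · simp
              · simpa using hpd)
          have hn0 : ¬ (3 : ℤ) ∣ n := by simpa using hn 0 (mem_univ _)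
          have hn1 : ¬ (3 : ℤ) ∣ d * n + a := by simpa using hn 1 (mem_univ _)
          refine ⟨n, fun i hdv => ?_⟩
          have h4 : (3 : ℤ) ∣ d ^ (e i) * n + cst a d (e i) := by exact_mod_cast hdv
          rcases Nat.even_or_odd' (e i) with ⟨s, hs | hs⟩
          · apply hn0
            rw [hs] at h4
            have h5 : d ^ (2 * s) * n + cst a d (2 * s) = (d ^ (2 * s) - 1) * n + cst a d (2 * s) + n := by ring
            rw [h5] at h4
            exact (Int.dvd_add_right (dvd_add ((hev s).1.mul_right _) (hev s).2)).1 h4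
          · apply hn1
            rw [hs] at h4
            have h6 : cst a d (2 * s + 1) = d ^ (2 * s) * a + cst a d (2 * s) := by
              rw [cst_add]; simp [cst]
            have h5 : d ^ (2 * s + 1) * n + cst a d (2 * s + 1) =
                (d ^ (2 * s) - 1) * (d * n + a) + cst a d (2 * s) + (d * n + a) := by
              rw [h6]; ring
            rw [h5] at h4
            exact (Int.dvd_add_right (dvd_add ((hev s).1.mul_right _) (hev s).2)).1 h4
    · obtain ⟨n, hn⟩ := avoid p hp (univ : Finset (Fin 4)) (by rw [card_univ, Fintype.card_fin]; omega)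
        (fun i => d ^ (e i)) (fun i => cst a d (e i)) (fun i _ h => hpd (hpz.dvd_of_dvd_pow h))
      exact ⟨n, fun i => hn i (mem_univ i)⟩

/-- the local condition for the powers of `T ^ N` -/
theorem lcb_pow (a d : ℤ) (hd : 0 < d) (hc : IsCoprime a d) (h2 : 2 ∣ a * d) (N : ℕ) (hN : 0 < N)
    (hN3 : 3 ∣ d - 1 → ¬ 3 ∣ a → 3 ∣ N) (s : Fin 4 → ℤ) :
    LCB (TE a d hd N) (fun i => TM a d hd ^ ((N : ℤ) * s i)) := by
  classical
  intro L
  -- a common starting point
  obtain ⟨R, hR⟩ : ∃ R : ℕ, ∀ i, 1 ≤ (N : ℤ) * s i + N * R := by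
    obtain ⟨Sg, hSg⟩ : ∃ Sg : ℕ, ∀ i, (s i).natAbs ≤ Sg := ⟨∑ i, (s i).natAbs, fun i =>
      single_le_sum (f := fun i => (s i).natAbs) (fun _ _ => Nat.zero_le _) (mem_univ i)⟩
    refine ⟨1 + Sg, fun i => ?_⟩
    have h1 := hSg i
    have h5 : (1 : ℤ) ≤ s i + ((1 + Sg : ℕ) : ℤ) := by omega
    have h6 : (1 : ℤ) ≤ N := by exact_mod_cast hN
    nlinarith
  have hex : ∀ i, ∃ e : ℕ, (e : ℤ) = (N : ℤ) * s i + N * R := fun i =>
    ⟨_, Int.toNat_of_nonneg (by have := hR i; linarith)⟩
  choose e he using hex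
  have he1 : ∀ i, 1 ≤ e i := fun i => by have := hR i; rw [← he] at this; exact_mod_cast this
  have heN : ∀ i j, (N : ℤ) ∣ (e i : ℤ) - e j := fun i j => ⟨s i - s j, by rw [he, he]; ring⟩
  have hzi : ∀ i, TM a d hd ^ ((N : ℤ) * s i) = TM a d hd ^ (e i) * (TM a d hd ^ (N * R))⁻¹ := by
    intro i
    rw [eq_mul_inv_iff_mul_eq, ← zpow_natCast, ← zpow_natCast, ← zpow_add, he]
    push_cast
    rfl
  refine ⟨L, fun W hW hw => ?_⟩
  choose! n hn i hi using hw
  have hpz : ∀ p : ℕ, p.Prime → Prime (p : ℤ) := fun p hp => Nat.prime_iff_prime_int.1 hp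
  refine ⟨((d ^ (N * R) : ℤ) : ℚ), (cst a d (N * R) : ℚ), by exact_mod_cast pow_pos hd _,
    fun w => d ^ (MM N (n w) + e (i w)), fun w => cst a d (MM N (n w) + e (i w)), ?_, ?_⟩
  · intro w hwW
    refine ⟨pow_pos hd _, fun m => ?_⟩
    conv_lhs => rw [hi w hwW]
    have h3 : (TM a d hd ^ (N * R))⁻¹ (((d ^ (N * R) : ℤ) : ℚ) * m + (cst a d (N * R) : ℚ)) = m := by
      rw [Equiv.Perm.inv_eq_iff_eq, TM_pow]
    beta_reduce
    rw [hzi, ← mul_assoc, Equiv.Perm.mul_apply, h3, TE, ← pow_add, TM_pow]
  · intro p hp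
    by_cases hpd : (p : ℤ) ∣ d
    · refine ⟨0, fun w hwW hdv => ?_⟩
      beta_reduce at hdv
      obtain ⟨t, ht⟩ : ∃ t, MM N (n w) + e (i w) = t + 1 :=
        ⟨MM N (n w) + e (i w) - 1, by have := he1 (i w); omega⟩
      have h3 : cst a d (MM N (n w) + e (i w)) = a + d * cst a d t := by
        rw [ht, add_comm t 1, cst_add]
        simp [cst]
        ring
      rw [mul_zero, zero_add, h3] at hdv
      have h4 : (p : ℤ) ∣ a := (Int.dvd_add_left (hpd.mul_right _)).1 hdv
      exact (hpz p hp).not_isUnit (hc.isUnit_of_dvd' h4 hpd)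
    · by_cases hpL : p ≤ L + 3
      · obtain ⟨m, hm⟩ := loc_small a d hc h2 N hN3 e he1 heN p hp
        refine ⟨m, fun w hwW hdv => hm (i w) ?_⟩
        beta_reduce at hdv
        have h5 := per a d p hp hpd (MM N (n w)) (MM_dvd N (n w) p (by have := hn w hwW; omega) hp.two_le)
        have h6 : d ^ (MM N (n w) + e (i w)) * m + cst a d (MM N (n w) + e (i w)) =
            (d ^ (MM N (n w)) - 1) * (d ^ (e (i w)) * m + cst a d (e (i w))) + cst a d (MM N (n w)) +
              (d ^ (e (i w)) * m + cst a d (e (i w))) := by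
          rw [cst_add, pow_add]; ring
        rw [h6] at hdv
        exact (Int.dvd_add_right (dvd_add (h5.1.mul_right _) h5.2)).1 hdv
      · exact avoid p hp W (by omega) _ _ (fun w _ h => hpd ((hpz p hp).dvd_of_dvd_pow h))

end Pool.Agent.Run7.h783.GS
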