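import Mathlib
import Pool.Agent.Run7.h783.GS.Iter

set_option autoImplicit false

/-!
All multiples of `N`, `2 N` or `3 N` in one sequence, for the iterates of `x ↦ a + d x`.
-/

namespace Pool.Agent.Run7.h783.GS

open Finset Filter

theorem iter_eq (a d : ℤ) (s : ℕ) (q : ℤ) : (fun y : ℤ => a + d * y)^[s] q = d ^ s * q + cst a d s := by
  induction s generalizing q with
  | zero => simp [cst]
  | succ s ih =>
    rw [Function.iterate_succ_apply, ih]
    have h1 : cst a d (s + 1) = d ^ s * a + cst a d s := by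
      rw [cst, cst, sum_range_succ]; ring
    rw [h1]
    ring

theorem iter_idx (a d : ℤ) (hd : 0 < d) (hc : IsCoprime a d) (h2 : 2 ∣ a * d) (N : ℕ) (hN : 0 < N)
    (hN3 : 3 ∣ d - 1 → ¬ 3 ∣ a → 3 ∣ N) (H : Subgroup PQ) (_ : H ≤ Subgroup.zpowers (TM a d hd ^ N))
    (h : ∀ z : Fin 4 → PQ, (∀ i, z i ∈ Subgroup.zpowers (TM a d hd ^ N)) → LCB (TE a d hd N) z →
      ∃ i j : Fin 4, i < j ∧ z j * (z i)⁻¹ ∈ H) :
    H.relIndex (Subgroup.zpowers (TM a d hd ^ N)) ≠ 0 ∧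
      H.relIndex (Subgroup.zpowers (TM a d hd ^ N)) ≤ 3 ∧ ∀ n, TE a d hd N n ∈ H := by
  have h4 : ∀ z : Fin 4 → PQ, (∀ i, z i ∈ Subgroup.zpowers (TM a d hd ^ N)) →
      ∃ i j : Fin 4, i < j ∧ z j * (z i)⁻¹ ∈ H := by
    intro z hz
    refine h z hz ?_
    choose s hs using fun i => Subgroup.mem_zpowers_iff.1 (hz i)
    have h5 : z = fun i => TM a d hd ^ ((N : ℤ) * s i) := by
      funext i
      rw [← hs i, zpow_mul, zpow_natCast]
    rw [h5]
    exact lcb_pow a d hd hc h2 N hN hN3 s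
  obtain ⟨h5, h6⟩ := index_le _ H h4
  refine ⟨h5, h6, fun n => ?_⟩
  obtain ⟨i, j, hij, hm⟩ := h4 (fun i => (TM a d hd ^ N) ^ (i : ℕ)) (fun i => Subgroup.npow_mem_zpowers _ _)
  obtain ⟨e, he, he6⟩ : ∃ e : ℕ, (j : ℕ) = i + e ∧ e ∣ 6 := by
    refine ⟨(j : ℕ) - i, by have := Fin.lt_def.1 hij; omega, ?_⟩
    have h1 := Fin.lt_def.1 hij
    have h2 := j.2
    have h3 : (j : ℕ) - i = 1 ∨ (j : ℕ) - i = 2 ∨ (j : ℕ) - i = 3 := by omega
    rcases h3 with h | h | h <;> rw [h] <;> decide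
  rw [he, add_comm, pow_add, mul_inv_cancel_right] at hm
  obtain ⟨c, hc6⟩ := he6
  have h7 : TE a d hd N n = ((TM a d hd ^ N) ^ e) ^ (c * ((n + 3).factorial * (n + 3).factorial)) := by
    rw [TE, MM, ← pow_mul, ← pow_mul]
    congr 1
    rw [hc6]
    ring
  rw [h7]
  exact H.pow_mem hm _

/-- **The iterates of one map.** -/
theorem final_iter (a d : ℤ) (hd : 0 < d) (hc : IsCoprime a d) (h2 : 2 ∣ a * d) (hne : ¬ (a = 0 ∧ d = 1))
    (N : ℕ) (hN : 0 < N) (hN3 : 3 ∣ d - 1 → ¬ 3 ∣ a → 3 ∣ N) :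
    ∃ m : ℕ, 1 ≤ m ∧ m ≤ 3 ∧ ∃ x : ℕ → ℤ, Function.Injective x ∧
      Set.range x = {y | ((m * N : ℕ) : ℤ) ∣ y} ∧
      ∀ k : ℕ, ∃ i₀ : ℕ, ∀ i ≥ i₀, ∀ l ≤ k, (∀ j ≤ k, x (i + l) ≤ x (i + j)) →
        ∀ η : ℝ, 0 < η → ∃ᶠ X : ℝ in atTop, X ^ (1 - η) ≤
          ({q : ℕ | (q : ℝ) ≤ X ∧ q.Prime ∧ ∀ j ≤ k, ∃ p : ℕ, p.Prime ∧
            (p : ℤ) = (fun y : ℤ => a + d * y)^[(x (i + j) - x (i + l)).toNat] q}.ncard : ℝ) := by
  classical
  set g : PQ := TM a d hd ^ N with hg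
  have hgA : g ∈ AffG := AffG.pow_mem (TM_mem a d hd) N
  have hgz : ∀ s : ℤ, g ^ s = TM a d hd ^ ((N : ℤ) * s) := fun s => by
    rw [hg, zpow_mul, zpow_natCast]
  have hN0 : (N : ℤ) ≠ 0 := by exact_mod_cast hN.ne'
  have hginj : ∀ s t : ℤ, g ^ s = g ^ t → s = t := by
    intro s t hst
    rw [hgz, hgz] at hst
    exact mul_left_cancel₀ hN0 (TM_inj a d hd hne hst)
  obtain ⟨H, hHA, h0, h3, y, hy1, hy2, hy3⟩ := main (Subgroup.zpowers g)
    ((Subgroup.zpowers_le).2 hgA) (TE a d hd N) (TE_inj a d hd hne N hN) (fun n => by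
      have h7 : TE a d hd N n = g ^ (6 * ((n + 3).factorial * (n + 3).factorial)) := by
        rw [TE, MM, hg, ← pow_mul]
        congr 1
        ring
      rw [h7]
      exact Subgroup.npow_mem_zpowers _ _) (by
    have h := lcb_pow a d hd hc h2 N hN hN3 (fun _ => 0)
    simpa using h) (iter_idx a d hd hc h2 N hN hN3)
  have hyH : ∀ i, y i ∈ H := fun i => by
    have : y i ∈ Set.range y := ⟨i, rfl⟩
    rw [hy2] at this
    exact this
  -- the generator
  obtain ⟨i, j, hij, hm⟩ := four_of_index _ H h0 h3 (fun i => g ^ (i : ℕ))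
    (fun i => Subgroup.npow_mem_zpowers _ _)
  have hex : ∃ e : ℕ, 1 ≤ e ∧ g ^ e ∈ H := by
    obtain ⟨e, he⟩ : ∃ e : ℕ, (j : ℕ) = i + e := ⟨(j : ℕ) - i, by have := Fin.lt_def.1 hij; omega⟩
    refine ⟨e, by have := Fin.lt_def.1 hij; omega, ?_⟩
    simp only [he] at hm
    rwa [add_comm, pow_add, mul_inv_cancel_right] at hm
  set m := Nat.find hex with hmdef
  obtain ⟨hm1, hmH⟩ := Nat.find_spec hex
  have hmmin : ∀ e : ℕ, e < m → g ^ e ∈ H → e = 0 := by
    intro e he heH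
    by_contra h
    exact Nat.find_min hex he ⟨by omega, heH⟩
  have hm3 : m ≤ 3 := by
    by_contra hcon
    have h4 : ((j : ℕ) - i) < m := by have := j.2; omega
    have h5 := hmmin ((j : ℕ) - i) h4 (by
      obtain ⟨e, he⟩ : ∃ e : ℕ, (j : ℕ) = i + e := ⟨(j : ℕ) - i, by have := Fin.lt_def.1 hij; omega⟩
      simp only [he] at hm ⊢
      rw [add_comm, pow_add, mul_inv_cancel_right] at hm
      rwa [Nat.add_sub_cancel_left])
    have := Fin.lt_def.1 hij
    omega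
  have hHm : ∀ s : ℤ, g ^ s ∈ H ↔ (m : ℤ) ∣ s := by
    intro s
    constructor
    · intro hs
      have h4 : s = m * (s / m) + ((s % m).toNat : ℤ) := by
        rw [Int.toNat_of_nonneg (Int.emod_nonneg _ (by omega))]
        exact (Int.mul_ediv_add_emod s m).symm
      have h5 : g ^ ((s % m).toNat) ∈ H := by
        have h6 : g ^ ((s % m).toNat) = g ^ s * ((g ^ m) ^ (s / m))⁻¹ := by
          rw [eq_mul_inv_iff_mul_eq, ← zpow_natCast g m, ← zpow_mul, ← zpow_natCast, ← zpow_add]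
          congr 1
          linarith
        rw [h6]
        exact H.mul_mem hs (H.inv_mem (H.zpow_mem hmH _))
      have h6 := hmmin _ (by
        have := Int.emod_lt_of_pos s (show (0 : ℤ) < m by omega)
        omega) h5
      rw [h6] at h4
      exact ⟨s / m, by simpa using h4⟩
    · rintro ⟨t, rfl⟩
      rw [zpow_mul, zpow_natCast]
      exact H.zpow_mem hmH t
  -- the exponents
  choose s hs using fun i => Subgroup.mem_zpowers_iff.1 (hHA (hyH i))
  refine ⟨m, hm1, hm3, fun i => (N : ℤ) * s i, ?_, ?_, ?_⟩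
  · intro i i' h
    have h4 : s i = s i' := mul_left_cancel₀ hN0 h
    apply hy1
    rw [← hs i, ← hs i', h4]
  · ext t
    constructor
    · rintro ⟨i, rfl⟩
      have h4 := hyH i
      rw [← hs i, hHm] at h4
      obtain ⟨c, hc⟩ := h4
      refine ⟨c, ?_⟩
      simp only [hc]
      push_cast
      ring
    · rintro ⟨c, hc⟩
      have h4 : g ^ ((m : ℤ) * c) ∈ Set.range y := by
        rw [hy2]; exact (hHm _).2 (dvd_mul_right _ _)
      obtain ⟨i, hi⟩ := h4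
      refine ⟨i, ?_⟩
      rw [← hs i] at hi
      have h5 := hginj _ _ hi
      simp only [h5, hc]
      push_cast
      ring
  · intro k
    obtain ⟨i₀, hi₀⟩ := hy3 (k + 1) (by omega)
    refine ⟨i₀, fun i hi l hl hmin η hη => ?_⟩
    have hPr := hi₀ i hi
    set z : PQ := (y (i + l))⁻¹ with hz
    have hyA : ∀ i, y i ∈ AffG := fun i => (Subgroup.zpowers_le).2 hgA (hHA (hyH i))
    have hzA : z ∈ AffG := AffG.inv_mem (hyA _)
    have hPr' := rinv_Pr _ z hzA hPr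
    have h4 := pr_count hPr' (by
      rw [image_nonempty, image_nonempty]
      exact ⟨0, mem_range.2 (by omega)⟩) (by
      intro σ hσ
      obtain ⟨τ, hτ, rfl⟩ := mem_image.1 hσ
      obtain ⟨j, -, rfl⟩ := mem_image.1 hτ
      exact AffG.mul_mem (hyA _) hzA) η hη
    refine h4.mono fun X hX => hX.trans ?_
    have hfin : {q : ℕ | (q : ℝ) ≤ X ∧ q.Prime ∧ ∀ j ≤ k, ∃ p : ℕ, p.Prime ∧
            (p : ℤ) = (fun y : ℤ => a + d * y)^[((N : ℤ) * s (i + j) - (N : ℤ) * s (i + l)).toNat] q}.Finite := by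
      apply (Set.finite_Iic ⌊X⌋₊).subset
      rintro q ⟨hq, -⟩
      exact Set.mem_Iic.2 (Nat.le_floor hq)
    have hsub : {x : ℚ | (x : ℝ) ≤ X ∧ ∀ σ ∈ ((Finset.range (k + 1)).image fun j => y (i + j)).image (· * z),
        ∃ p : ℕ, p.Prime ∧ σ x = p} ⊆ (fun q : ℕ => (q : ℚ)) '' {q : ℕ | (q : ℝ) ≤ X ∧ q.Prime ∧
          ∀ j ≤ k, ∃ p : ℕ, p.Prime ∧
            (p : ℤ) = (fun y : ℤ => a + d * y)^[((N : ℤ) * s (i + j) - (N : ℤ) * s (i + l)).toNat] q} := by
      rintro x ⟨hx1, hx2⟩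
      have hW : ∀ j ≤ k, y (i + j) * z ∈ ((Finset.range (k + 1)).image fun j => y (i + j)).image (· * z) :=
        fun j hj => mem_image_of_mem _ (mem_image_of_mem (fun j => y (i + j)) (mem_range.2 (by omega)))
      obtain ⟨q, hq, hq'⟩ := hx2 _ (hW l hl)
      rw [hz, mul_inv_cancel, Equiv.Perm.one_apply] at hq'
      subst hq'
      refine ⟨q, ⟨by exact_mod_cast hx1, hq, fun j hj => ?_⟩, rfl⟩
      obtain ⟨p, hp, hp'⟩ := hx2 _ (hW j hj)
      refine ⟨p, hp, ?_⟩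
      have h5 : y (i + j) * z = TM a d hd ^ (((N : ℤ) * s (i + j) - (N : ℤ) * s (i + l)).toNat) := by
        rw [hz, ← hs (i + j), ← hs (i + l), hgz, hgz, ← zpow_neg, ← zpow_add, ← zpow_natCast,
          Int.toNat_of_nonneg (by have := hmin j hj; linarith)]
        congr 1
      rw [h5, TM_pow] at hp'
      rw [iter_eq]
      have h6 : ((p : ℤ) : ℚ) = ((d ^ ((N : ℤ) * s (i + j) - (N : ℤ) * s (i + l)).toNat * q +
          cst a d ((N : ℤ) * s (i + j) - (N : ℤ) * s (i + l)).toNat : ℤ) : ℚ) := by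
        push_cast
        push_cast at hp'
        exact hp'.symm
      exact_mod_cast h6
    have h7 := Set.ncard_le_ncard hsub (hfin.image _)
    rw [Set.ncard_image_of_injective _ Nat.cast_injective] at h7
    exact_mod_cast h7

end Pool.Agent.Run7.h783.GS
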