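import Mathlib
import Pool.Agent.Run7.h783.GS.AffM

set_option autoImplicit false

/-!
Dilations with centre `1` or `-1`: subgroups of the multiplicative group of the positive rationals.
-/

namespace Pool.Agent.Run7.h783.GS

open Finset Filter

/-- the dilation with centre `c` -/
def dil (c : ℤ) (r : ℚ) (hr : 0 < r) : PQ := aff r (c * (1 - r)) hr

theorem dil_apply (c : ℤ) (r : ℚ) (hr : 0 < r) (x : ℚ) : dil c r hr x = r * (x - c) + c := by
  rw [dil, aff_apply]; ring

theorem sl_dil (c : ℤ) (r : ℚ) (hr : 0 < r) : sl (dil c r hr) = r := sl_aff _ _ _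

theorem ready_center (c : ℤ) (W : Finset PQ)
    (hW : ∀ w ∈ W, ∃ (r : ℚ) (hr : 0 < r), w = dil c r hr ∧ IsCoprime r.num c ∧
      IsCoprime (r.den : ℤ) c) : Ready W := by
  classical
  set D : ℕ := ∏ w ∈ W, (sl w).den with hD
  have hD0 : 0 < D := prod_pos fun w _ => (sl w).den_pos
  have hDc : IsCoprime (D : ℤ) c := by
    rw [hD, Nat.cast_prod]
    refine IsCoprime.prod_left fun w hw => ?_
    obtain ⟨r, hr, rfl, -, h2⟩ := hW w hw
    rw [sl_dil]
    exact h2
  have hDi : ∀ w ∈ W, (sl w).den ∣ D := fun w hw => dvd_prod_of_mem (fun w => (sl w).den) hw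
  choose! e he using hDi
  have hac : ∀ w ∈ W, IsCoprime ((sl w).num * e w) c := by
    intro w hw
    have h1 : IsCoprime ((e w : ℤ)) c := by
      have h2 : (D : ℤ) = ((sl w).den : ℤ) * e w := by exact_mod_cast he w hw
      rw [h2] at hDc
      exact hDc.of_mul_left_right
    obtain ⟨r, hr, hwr, h3, -⟩ := hW w hw
    have h4 : sl w = r := by rw [hwr, sl_dil]
    rw [h4]
    exact h3.mul_left h1
  refine ⟨(D : ℚ), (c : ℚ), by exact_mod_cast hD0, fun w => (sl w).num * e w, fun _ => c, ?_, ?_⟩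
  · intro w hw
    obtain ⟨r, hr, hwr, -, -⟩ := hW w hw
    have he0 : 0 < e w := Nat.pos_of_ne_zero fun h => by
      have := he _ hw
      rw [h, mul_zero] at this
      omega
    have hslr : sl w = r := by rw [hwr, sl_dil]
    have hnum : 0 < (sl w).num := by rw [hslr]; exact Rat.num_pos.2 hr
    refine ⟨mul_pos hnum (by exact_mod_cast he0), fun n => ?_⟩
    have h1 : (sl w) * (D : ℚ) = (sl w).num * e w := by
      rw [he _ hw]
      push_cast
      rw [← mul_assoc, Rat.mul_den_eq_num]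
    have h2 : r * (D : ℚ) = (sl w).num * e w := by
      rw [← h1, hslr]
    have h3 : w ((D : ℚ) * n + c) = r * ((D : ℚ) * n + c - c) + c := by
      rw [hwr, dil_apply]
    rw [h3]
    push_cast
    linear_combination (n : ℚ) * h2
  · intro p hp
    by_cases hpc : (p : ℤ) ∣ c
    · refine ⟨1, fun w hw hd => ?_⟩
      rw [mul_one] at hd
      have h1 : (p : ℤ) ∣ (sl w).num * e w := (Int.dvd_add_left hpc).1 hd
      have h2 := (hac w hw).isUnit_of_dvd' h1 hpc
      have h3 := Int.isUnit_iff.1 h2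
      have := hp.two_le
      omega
    · refine ⟨0, fun w _ hd => ?_⟩
      rw [mul_zero, zero_add] at hd
      exact hpc hd

/-- **Dilations with centre `c`.** -/
theorem final_mult (c : ℤ) (G : Subgroup ℚˣ) (hpos : ∀ g ∈ G, 0 < (g : ℚ))
    (hcop : ∀ g ∈ G, IsCoprime (g : ℚ).num c) (hinf : (G : Set ℚˣ).Infinite) :
    ∃ H : Subgroup ℚˣ, H ≤ G ∧ H.relIndex G ≠ 0 ∧ H.relIndex G ≤ 3 ∧
      ∃ r : ℕ → ℚˣ, Function.Injective r ∧ Set.range r = H ∧
        ∀ k : ℕ, ∃ i₀ : ℕ, ∀ i ≥ i₀, ∀ m : ℕ → ℕ, (∀ j ≤ k, 1 ≤ m j) →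
          (∀ j ≤ k, (m j : ℚ) * r i = m 0 * r (i + j)) → (Finset.range (k + 1)).gcd m = 1 →
          ∀ η : ℝ, 0 < η → ∃ᶠ X : ℝ in atTop, X ^ (1 - η) ≤
            ({q : ℤ | (q : ℝ) ≤ X ∧ ∀ j ≤ k, ∃ p : ℕ, p.Prime ∧ (p : ℤ) = m j * q + c}.ncard : ℝ) := by
  classical
  have hden : ∀ g ∈ G, IsCoprime ((g : ℚ).den : ℤ) c := by
    intro g hg
    have h1 := hcop g⁻¹ (G.inv_mem hg)
    have h0 := hpos g hg
    rw [Units.val_inv_eq_inv_val, Rat.inv_def, Rat.num_divInt] at h1
    have h2 : 0 < (g : ℚ).num := Rat.num_pos.2 h0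
    have h3 : ((g : ℚ).num).gcd ((g : ℚ).den : ℤ) = 1 := by
      rw [Int.gcd, Int.natAbs_natCast]
      exact (g : ℚ).reduced
    rw [Int.sign_eq_one_of_pos h2] at h1
    rw [h3] at h1
    simpa using h1
  have hpos' : ∀ g : G, 0 < ((g : ℚˣ) : ℚ) := fun g => hpos g.1 g.2
  -- the homomorphism to the affine maps
  set δ : G →* PQ :=
    { toFun := fun g => dil c ((g : ℚˣ) : ℚ) (hpos' g)
      map_one' := by
        ext x
        rw [dil_apply]
        simp
      map_mul' := by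
        intro g h
        ext x
        rw [Equiv.Perm.mul_apply, dil_apply, dil_apply, dil_apply]
        push_cast
        ring } with hδ
  have hδa : ∀ g : G, δ g = dil c ((g : ℚˣ) : ℚ) (hpos' g) := fun g => rfl
  have hδi : Function.Injective δ := by
    intro g h hgh
    have h1 : sl (δ g) = sl (δ h) := by rw [hgh]
    rw [hδa, hδa, sl_dil, sl_dil] at h1
    exact Subtype.ext (Units.ext h1)
  have hAA : δ.range ≤ AffG := by
    rintro _ ⟨g, rfl⟩
    exact aff_mem _ _ (hpos' g)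
  -- the sequence of sixth powers
  have hGinf : Infinite G := hinf.to_subtype
  set gs : ℕ → G := fun n => Infinite.natEmbedding G n with hgs
  have hgsi : Function.Injective gs := (Infinite.natEmbedding G).injective
  set E : ℕ → PQ := fun n => δ (gs n ^ 6) with hE
  have hEi : Function.Injective E := by
    intro a b hab
    have h1 := hδi hab
    have h2 : (((gs a ^ 6 : G) : ℚˣ) : ℚ) = (((gs b ^ 6 : G) : ℚˣ) : ℚ) := by rw [h1]
    push_cast at h2
    have h3 := (pow_left_inj₀ (hpos' (gs a)).le (hpos' (gs b)).le (by norm_num : (6 : ℕ) ≠ 0)).1 h2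
    exact hgsi (Subtype.ext (Units.ext h3))
  have hlcb : ∀ z : Fin 4 → PQ, (∀ i, z i ∈ δ.range) → LCB E z := by
    intro z hz L
    refine ⟨0, fun W _ hw => ready_center c W fun w hwW => ?_⟩
    obtain ⟨n, -, i, rfl⟩ := hw w hwW
    obtain ⟨g, hg⟩ := hz i
    exact ⟨_, hpos' (gs n ^ 6 * g), by rw [← hδa, map_mul, ← hg],
      hcop _ (gs n ^ 6 * g).2, hden _ (gs n ^ 6 * g).2⟩
  obtain ⟨H', hHA, h0, h3, y, hy1, hy2, hy3⟩ := main δ.range hAA E hEi (fun n => ⟨_, rfl⟩)
    (hlcb _ fun _ => δ.range.one_mem) (by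
    intro H _ h
    have h4 : ∀ z : Fin 4 → PQ, (∀ i, z i ∈ δ.range) → ∃ i j : Fin 4, i < j ∧ z j * (z i)⁻¹ ∈ H :=
      fun z hz => h z hz (hlcb z hz)
    obtain ⟨h5, h6⟩ := index_le _ H h4
    refine ⟨h5, h6, fun n => ?_⟩
    obtain ⟨i, j, hij, hm⟩ := h4 (fun i => δ (gs n) ^ (i : ℕ)) (fun i => ⟨gs n ^ (i : ℕ), map_pow _ _ _⟩)
    obtain ⟨e, he, he6⟩ : ∃ e : ℕ, (j : ℕ) = i + e ∧ e ∣ 6 := by
      refine ⟨(j : ℕ) - i, by have := Fin.lt_def.1 hij; omega, ?_⟩
      have h1 := Fin.lt_def.1 hij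
      have h2 := j.2
      have h3 : (j : ℕ) - i = 1 ∨ (j : ℕ) - i = 2 ∨ (j : ℕ) - i = 3 := by omega
      rcases h3 with h | h | h <;> rw [h] <;> decide
    rw [he, add_comm, pow_add, mul_inv_cancel_right] at hm
    obtain ⟨t, ht⟩ := he6
    have h7 : E n = (δ (gs n) ^ e) ^ t := by
      rw [hE, ← pow_mul, ← ht, ← map_pow]
    rw [h7]
    exact H.pow_mem hm _)
  have hyH : ∀ i, y i ∈ H' := fun i => by
    have : y i ∈ Set.range y := ⟨i, rfl⟩
    rw [hy2] at this
    exact this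
  choose g hg using fun i => hHA (hyH i)
  set H : Subgroup ℚˣ := (H'.comap δ).map G.subtype with hH
  have hmemH : ∀ h : G, (h : ℚˣ) ∈ H ↔ δ h ∈ H' := by
    intro h
    rw [hH, Subgroup.mem_map]
    constructor
    · rintro ⟨h', hh', he⟩
      have : h' = h := Subtype.ext he
      rw [← this]
      exact hh'
    · intro hh
      exact ⟨h, hh, rfl⟩
  have hHG : H ≤ G := by
    rintro _ ⟨h, -, rfl⟩
    exact h.2
  have hidx := index_le G H (fun z hz => by
    obtain ⟨i, j, hij, hm⟩ := four_of_index _ H' h0 h3 (fun i => δ ⟨z i, hz i⟩) (fun i => ⟨_, rfl⟩)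
    refine ⟨i, j, hij, ?_⟩
    have h1 := (hmemH (⟨z j, hz j⟩ * (⟨z i, hz i⟩)⁻¹)).2 (by rw [map_mul, map_inv]; exact hm)
    exact h1)
  refine ⟨H, hHG, hidx.1, hidx.2, fun i => (g i : ℚˣ), ?_, ?_, ?_⟩
  · intro i j h
    apply hy1
    rw [← hg i, ← hg j]
    congr 1
    exact Subtype.ext h
  · ext u
    constructor
    · rintro ⟨i, rfl⟩
      exact (hmemH _).2 (by rw [hg]; exact hyH i)
    · intro hu
      have huG := hHG hu
      have h1 : δ ⟨u, huG⟩ ∈ Set.range y := by
        rw [hy2]; exact (hmemH ⟨u, huG⟩).1 hu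
      obtain ⟨i, hi⟩ := h1
      refine ⟨i, ?_⟩
      rw [← hg i] at hi
      have := hδi hi
      show ((g i : G) : ℚˣ) = u
      rw [this]
  · intro k
    obtain ⟨i₀, hi₀⟩ := hy3 (k + 1) (by omega)
    refine ⟨i₀, fun i hi m hm1 hmr hgcd η hη => ?_⟩
    have hPr := hi₀ i hi
    have hyA : ∀ i, y i ∈ AffG := fun i => hAA (hHA (hyH i))
    have hm0 : (0 : ℚ) < m 0 := by exact_mod_cast hm1 0 (Nat.zero_le k)
    have hr0 : ∀ i, (0 : ℚ) < ((g i : ℚˣ) : ℚ) := fun i => hpos' (g i)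
    set z : PQ := aff ((m 0 : ℚ) / ((g i : ℚˣ) : ℚ)) c (div_pos hm0 (hr0 i)) with hz
    have hzA : z ∈ AffG := aff_mem _ _ _
    have hval : ∀ j ≤ k, ∀ x : ℚ, (y (i + j) * z) x = m j * x + c := by
      intro j hj x
      rw [Equiv.Perm.mul_apply, hz, aff_apply, ← hg (i + j), hδa, dil_apply]
      have h1 := hmr j hj
      have h2 := (hr0 i).ne'
      have h3 : ((g (i + j) : ℚˣ) : ℚ) * ((m 0 : ℚ) / ((g i : ℚˣ) : ℚ)) = m j := by
        rw [mul_div_assoc', div_eq_iff h2]
        linarith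
      linear_combination x * h3
    have hPr' := rinv_Pr _ z hzA hPr
    have h4 := pr_count hPr' (by
      rw [image_nonempty, image_nonempty]
      exact ⟨0, mem_range.2 (by omega)⟩) (by
      intro σ hσ
      obtain ⟨τ, hτ, rfl⟩ := mem_image.1 hσ
      obtain ⟨j, -, rfl⟩ := mem_image.1 hτ
      exact AffG.mul_mem (hyA _) hzA) η hη
    refine h4.mono fun X hX => hX.trans ?_
    have hfin : {q : ℤ | (q : ℝ) ≤ X ∧ ∀ j ≤ k, ∃ p : ℕ, p.Prime ∧ (p : ℤ) = m j * q + c}.Finite := by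
      apply (Set.finite_Icc (-|c|) ⌊X⌋).subset
      rintro q ⟨hq, hq2⟩
      refine Set.mem_Icc.2 ⟨?_, Int.le_floor.2 hq⟩
      obtain ⟨p, hp, hpq⟩ := hq2 0 (Nat.zero_le k)
      have h8 : (1 : ℤ) ≤ m 0 := by exact_mod_cast hm1 0 (Nat.zero_le k)
      by_contra h9
      push Not at h9
      have h10 : c ≤ |c| := le_abs_self c
      have h11 : 0 ≤ |c| := abs_nonneg c
      have h12 : (m 0 : ℤ) * q ≤ q := by nlinarith
      have h13 : (0 : ℤ) ≤ p := by positivity
      omega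
    have hsub : {x : ℚ | (x : ℝ) ≤ X ∧ ∀ σ ∈ ((Finset.range (k + 1)).image fun j => y (i + j)).image (· * z),
        ∃ p : ℕ, p.Prime ∧ σ x = p} ⊆ (fun q : ℤ => (q : ℚ)) '' {q : ℤ | (q : ℝ) ≤ X ∧
          ∀ j ≤ k, ∃ p : ℕ, p.Prime ∧ (p : ℤ) = m j * q + c} := by
      rintro x ⟨hx1, hx2⟩
      have hW : ∀ j ≤ k, ∃ p : ℕ, p.Prime ∧ (m j : ℚ) * x + c = p := by
        intro j hj
        obtain ⟨p, hp, hp'⟩ := hx2 _ (mem_image_of_mem _ (mem_image_of_mem (fun j => y (i + j))
          (mem_range.2 (show j < k + 1 by omega))))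
        exact ⟨p, hp, by rw [← hp']; exact (hval j hj x).symm⟩
      choose! p hp hp' using hW
      -- `x` is an integer
      have hxi : ∃ t : ℤ, (t : ℚ) = x := by
        obtain ⟨b, hb⟩ := Finset.gcd_eq_sum_mul (Finset.range (k + 1)) (fun j => (m j : ℤ))
        have hg1 : (Finset.range (k + 1)).gcd (fun j => (m j : ℤ)) = 1 := by
          have h5 : ((Finset.range (k + 1)).gcd (fun j => (m j : ℤ))) ∣ 1 := by
            have h6 : ∀ j ∈ Finset.range (k + 1),
                ((Finset.range (k + 1)).gcd (fun j => (m j : ℤ))).natAbs ∣ m j := by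
              intro j hj
              have h7 := Finset.gcd_dvd (f := fun j => (m j : ℤ)) hj
              exact Int.natAbs_dvd_natAbs.2 h7
            have h8 := Finset.dvd_gcd h6
            rw [hgcd] at h8
            have h9 : ((Finset.range (k + 1)).gcd (fun j => (m j : ℤ))).natAbs = 1 := Nat.dvd_one.1 h8
            exact Int.natAbs_dvd_natAbs.1 (by rw [h9]; exact one_dvd _)
          have h6 := Finset.normalize_gcd (s := Finset.range (k + 1)) (f := fun j => (m j : ℤ))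
          have h7 := normalize_eq_one.2 (isUnit_of_dvd_one h5)
          rw [← h6, h7]
        rw [hg1] at hb
        refine ⟨∑ j ∈ Finset.range (k + 1), b j * ((p j : ℤ) - c), ?_⟩
        have hb' : (1 : ℚ) = ∑ j ∈ Finset.range (k + 1), (b j : ℚ) * (m j : ℚ) := by
          have h8 : (1 : ℚ) = ∑ j ∈ Finset.range (k + 1), (m j : ℚ) * (b j : ℚ) := by
            exact_mod_cast hb
          rw [h8]
          exact Finset.sum_congr rfl fun j _ => mul_comm _ _
        push_cast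
        calc ∑ j ∈ Finset.range (k + 1), (b j : ℚ) * ((p j : ℚ) - c)
            = ∑ j ∈ Finset.range (k + 1), ((b j : ℚ) * (m j : ℚ)) * x := by
              apply Finset.sum_congr rfl
              intro j hj
              have := hp' j (by have := mem_range.1 hj; omega)
              linear_combination (-(b j : ℚ)) * this
          _ = x := by rw [← Finset.sum_mul, ← hb', one_mul]
      obtain ⟨t, ht⟩ := hxi
      refine ⟨t, ⟨?_, fun j hj => ⟨p j, hp j hj, ?_⟩⟩, ht⟩
      · have h5 : ((t : ℚ) : ℝ) ≤ X := by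
          rw [ht]
          exact hx1
        exact_mod_cast h5
      · have h5 := hp' j hj
        rw [← ht] at h5
        have h6 : (m j : ℤ) * t + c = p j := by exact_mod_cast h5
        omega
    have h7 := Set.ncard_le_ncard hsub (hfin.image _)
    rw [Set.ncard_image_of_injective _ Int.cast_injective] at h7
    exact_mod_cast h7

end Pool.Agent.Run7.h783.GS
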